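import Pool.Agent.Helper58.GI.Tower

/-!
GLINF. Directed unions of linear groups over `K` in which the inclusions are polynomial and proper at all
non-archimedean absolute values (for instance homomorphisms of linear algebraic groups with finite
kernel): thinness of the finitely generated subgroups.
-/

set_option autoImplicit false

namespace Pool.Agent.Helper58.GI

open Pool.Agent.Helper65.TH Pool.Agent.Helper61.Apc

universe u w

/-- thinness in one finitely generated group; the parameters are only assumed to be bounded in terms of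
the matrices -/
theorem thin_of_data' {K : Type u} [Field K] {d n m : ℕ} (v : Fin n → AbsoluteValue K ℝ)
    (hv : ∀ i, IsNonarchimedean (v i)) {Γ : Type*} [Group Γ] (L : Subgroup Γ)
    (y : Γ → Fin d → K) (hfin : ∀ B : ℝ, {h : Γ | h ∈ L ∧ ∀ i l, v i (y h l) ≤ B}.Finite)
    (φ : Γ →* GL (Fin m) K) (P : Fin m → Fin m → MvPolynomial (Fin d) K)
    (hP : ∀ h ∈ L, ∀ a b, (φ h : Matrix (Fin m) (Fin m) K) a b = MvPolynomial.eval (y h) (P a b))
    (hQ : ∀ i, ∀ R : ℝ, ∃ B : ℝ, ∀ h ∈ L,
      (∀ a b, v i ((φ h : Matrix (Fin m) (Fin m) K) a b) ≤ R) → ∀ l, v i (y h l) ≤ B) :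
    Thin L (n * d) := by
  classical
  intro F ε hε
  have hloc : ∀ i : Fin n, ∃ (g : Γ → Fin d → ℝ) (ρ : ℝ),
      (∀ x, ∀ s ∈ F, Near (g (x * s)) (g x) ε) ∧
      ∀ x z, Chain {s | s ∈ F ∧ s ∈ L} (fun b => Near (g b) (g x) 1) x z →
        ∀ a b, v i ((φ (x⁻¹ * z) : Matrix (Fin m) (Fin m) K) a b) ≤ ρ := fun i =>
    local_light (hv i) φ L y P hP F ε hε
  choose g ρ hg hρ using hloc
  choose B hB using fun i : Fin n => hQ i (ρ i)
  refine ⟨fun x p => g (finProdFinEquiv.symm p).1 x (finProdFinEquiv.symm p).2,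
    (hfin (∑ i, |B i|)).toFinset, ?_, ?_⟩
  · intro x s hs p
    exact hg _ x s hs _
  · intro x z hxz
    rw [Set.Finite.mem_toFinset]
    have hL : x⁻¹ * z ∈ L := hxz.mem_subgroup L (fun s hs => hs.2)
    refine ⟨hL, fun i l => ?_⟩
    have h1 : ∀ a b, v i ((φ (x⁻¹ * z) : Matrix (Fin m) (Fin m) K) a b) ≤ ρ i := by
      refine hρ i x z (hxz.mono (Set.Subset.refl _) ?_)
      intro b hb j
      have h2 := hb (finProdFinEquiv (i, j))
      simp only [Equiv.symm_apply_apply] at h2
      exact h2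
    refine (hB i _ hL h1 l).trans ((le_abs_self _).trans ?_)
    exact Finset.single_le_sum (f := fun i' => |B i'|) (fun i' _ => abs_nonneg _)
      (Finset.mem_univ i)

/-- for every non-archimedean absolute value of `K`, the entries of `σ h` and `(σ h)⁻¹` are bounded on
every set on which the entries of `ρ h` and `(ρ h)⁻¹` are bounded -/
def BddIn {K : Type*} [Field K] {H : Type*} [Group H] {n m : ℕ} (ρ : H →* GL (Fin n) K)
    (σ : H →* GL (Fin m) K) : Prop :=
  ∀ v : AbsoluteValue K ℝ, IsNonarchimedean v → ∀ R : ℝ, ∃ B : ℝ, ∀ h,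
    (∀ s, v (ent (ρ h) s) ≤ R) → ∀ s, v (ent (σ h) s) ≤ B

theorem BddIn.refl {K : Type*} [Field K] {H : Type*} [Group H] {n : ℕ} (ρ : H →* GL (Fin n) K) :
    BddIn ρ ρ :=
  fun _ _ R => ⟨R, fun _ h => h⟩

theorem BddIn.trans {K : Type*} [Field K] {H : Type*} [Group H] {n m l : ℕ}
    {ρ : H →* GL (Fin n) K} {σ : H →* GL (Fin m) K} {τ : H →* GL (Fin l) K} (h1 : BddIn ρ σ)
    (h2 : BddIn σ τ) : BddIn ρ τ := by
  intro v hv R
  obtain ⟨B, hB⟩ := h1 v hv R
  obtain ⟨C, hC⟩ := h2 v hv B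
  exact ⟨C, fun h hh => hC h (hB h hh)⟩

theorem BddIn.comap {K : Type*} [Field K] {H H' : Type*} [Group H] [Group H'] {n m : ℕ}
    {ρ : H →* GL (Fin n) K} {σ : H →* GL (Fin m) K} (h : BddIn ρ σ) (f : H' →* H) :
    BddIn (ρ.comp f) (σ.comp f) := by
  intro v hv R
  obtain ⟨B, hB⟩ := h v hv R
  exact ⟨B, fun h hh => hB (f h) hh⟩

/-- polynomial functions are bounded -/
theorem PolyIn.bddIn {K : Type*} [Field K] {H : Type*} [Group H] {n m : ℕ}
    {ρ : H →* GL (Fin n) K} {σ : H →* GL (Fin m) K} (h : PolyIn ρ σ) : BddIn ρ σ := by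
  obtain ⟨P, hP⟩ := h.ent
  intro v _ R
  choose B hB0 hB using fun s => exists_bound_eval v (P s) R
  refine ⟨∑ s, B s, fun h hh s => ?_⟩
  rw [hP]
  exact (hB s _ hh).trans (Finset.single_le_sum (f := B) (fun s _ => hB0 s) (Finset.mem_univ s))

/-- a root of a monic polynomial with polynomial coefficients is bounded where the variables are -/
theorem exists_bound_root {K : Type*} [Field K] (v : AbsoluteValue K ℝ) {σ : Type*} [Fintype σ]
    (q : Polynomial (MvPolynomial σ K)) (hq : q.Monic) (R : ℝ) :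
    ∃ B : ℝ, 0 ≤ B ∧ ∀ z : σ → K, (∀ p, v (z p) ≤ R) → ∀ y : K,
      (q.map (MvPolynomial.eval z)).eval y = 0 → v y ≤ B := by
  choose B hB0 hB using fun i : ℕ => exists_bound_eval v (q.coeff i) R
  have hS : 0 ≤ ∑ i ∈ Finset.range q.natDegree, B i := Finset.sum_nonneg fun i _ => hB0 i
  refine ⟨1 + ∑ i ∈ Finset.range q.natDegree, B i, by linarith, ?_⟩
  intro z hz y hy
  by_contra hlt
  push Not at hlt
  have hy1 : 1 ≤ v y := by linarith
  have hmon : (q.map (MvPolynomial.eval z)).Monic := hq.map _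
  have hdeg : (q.map (MvPolynomial.eval z)).natDegree = q.natDegree := hq.natDegree_map _
  rw [Polynomial.eval_eq_sum_range, hdeg, Finset.sum_range_succ] at hy
  have hlead : (q.map (MvPolynomial.eval z)).coeff q.natDegree = 1 := by
    rw [← hdeg]
    exact hmon
  rw [hlead, one_mul] at hy
  have h1 : y ^ q.natDegree = -∑ i ∈ Finset.range q.natDegree,
      (q.map (MvPolynomial.eval z)).coeff i * y ^ i := by
    linear_combination hy
  have h2 : v y ^ q.natDegree ≤ ∑ i ∈ Finset.range q.natDegree, B i * v y ^ i := by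
    rw [← map_pow, h1, AbsoluteValue.map_neg]
    refine (v.sum_le _ _).trans (Finset.sum_le_sum fun i _ => ?_)
    rw [map_mul, map_pow, Polynomial.coeff_map]
    exact mul_le_mul_of_nonneg_right (hB i z hz) (pow_nonneg (v.nonneg _) _)
  rcases Nat.eq_zero_or_pos q.natDegree with h0 | hpos
  · rw [h0] at h2
    simp at h2
    linarith
  · obtain ⟨k, hk⟩ := Nat.exists_eq_succ_of_ne_zero hpos.ne'
    have h3 : ∑ i ∈ Finset.range q.natDegree, B i * v y ^ i ≤
        (∑ i ∈ Finset.range q.natDegree, B i) * v y ^ k := by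
      rw [Finset.sum_mul]
      refine Finset.sum_le_sum fun i hi => ?_
      have hik : i ≤ k := by
        have := Finset.mem_range.1 hi
        omega
      exact mul_le_mul_of_nonneg_left (pow_le_pow_right₀ hy1 hik) (hB0 i)
    have h4 : v y * v y ^ k ≤ (∑ i ∈ Finset.range q.natDegree, B i) * v y ^ k := by
      refine le_trans (le_of_eq ?_) (h2.trans h3)
      rw [hk, Nat.succ_eq_add_one, pow_succ']
    have h5 : 0 < v y ^ k := pow_pos (by linarith) _
    have h6 := le_of_mul_le_mul_right h4 h5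
    linarith

/-- the entries of `σ h` are integral over the polynomials in the entries of `ρ h` and `(ρ h)⁻¹`, with
equations independent of `h` -/
theorem bddIn_of_integral {K : Type*} [Field K] {H : Type*} [Group H] {n m : ℕ}
    (ρ : H →* GL (Fin n) K) (σ : H →* GL (Fin m) K)
    (q : Fin m → Fin m → Polynomial (MvPolynomial ((Fin n × Fin n) ⊕ (Fin n × Fin n)) K))
    (hq : ∀ a b, (q a b).Monic)
    (hroot : ∀ h a b, ((q a b).map (MvPolynomial.eval (ent (ρ h)))).eval
      ((σ h : Matrix (Fin m) (Fin m) K) a b) = 0) : BddIn ρ σ := by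
  intro v _ R
  choose B hB0 hB using fun a b => exists_bound_root v (q a b) (hq a b) R
  have hsum : ∀ a b, B a b ≤ ∑ a', ∑ b', B a' b' := by
    intro a b
    have h3 : B a b ≤ ∑ b', B a b' :=
      Finset.single_le_sum (f := fun b' => B a b') (fun b' _ => hB0 a b') (Finset.mem_univ b)
    exact h3.trans (Finset.single_le_sum (f := fun a' => ∑ b', B a' b')
      (fun a' _ => Finset.sum_nonneg fun b' _ => hB0 a' b') (Finset.mem_univ a))
  refine ⟨∑ a', ∑ b', B a' b', ?_⟩
  intro h hh s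
  rcases s with ⟨a, b⟩ | ⟨a, b⟩
  · exact (hB a b _ hh _ (hroot h a b)).trans (hsum a b)
  · have h1 := hroot h⁻¹ a b
    rw [map_inv, map_inv] at h1
    refine (hB a b _ ?_ _ h1).trans (hsum a b)
    intro p
    rw [ent_inv]
    exact hh _

/-- `H ≤ H'`; on `H` the entries of `ρ' g` are polynomials in the entries of `ρ g` and `(ρ g)⁻¹`; and for
every non-archimedean absolute value of `K` the entries of `ρ g` and `(ρ g)⁻¹` are bounded in terms of
the entries of `ρ' g` and `(ρ' g)⁻¹`. -/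
def ProperLe {K : Type*} [Field K] {G : Type*} [Group G] {H H' : Subgroup G} {n m : ℕ}
    (ρ : H →* GL (Fin n) K) (ρ' : H' →* GL (Fin m) K) : Prop :=
  ∃ h : H ≤ H', PolyIn ρ (ρ'.comp (Subgroup.inclusion h)) ∧
    BddIn (ρ'.comp (Subgroup.inclusion h)) ρ

theorem PolyLe.properLe {K : Type*} [Field K] {G : Type*} [Group G] {H H' : Subgroup G}
    {n m : ℕ} {ρ : H →* GL (Fin n) K} {ρ' : H' →* GL (Fin m) K} (h : PolyLe ρ ρ') :
    ProperLe ρ ρ' := by
  obtain ⟨h, a, b⟩ := h
  exact ⟨h, a, b.bddIn⟩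

theorem ProperLe.refl {K : Type*} [Field K] {G : Type*} [Group G] {H : Subgroup G} {n : ℕ}
    (ρ : H →* GL (Fin n) K) : ProperLe ρ ρ :=
  ⟨le_rfl, PolyIn.refl _, BddIn.refl _⟩

theorem ProperLe.trans {K : Type*} [Field K] {G : Type*} [Group G] {H H' H'' : Subgroup G}
    {n m l : ℕ} {ρ : H →* GL (Fin n) K} {ρ' : H' →* GL (Fin m) K} {ρ'' : H'' →* GL (Fin l) K}
    (h1 : ProperLe ρ ρ') (h2 : ProperLe ρ' ρ'') : ProperLe ρ ρ'' := by
  obtain ⟨h, a, b⟩ := h1
  obtain ⟨h', a', b'⟩ := h2
  exact ⟨h.trans h', a.trans (a'.comap (Subgroup.inclusion h)),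
    BddIn.trans (b'.comap (Subgroup.inclusion h)) b⟩

/-- `G` is the union of a family of subgroups `H i` with homomorphisms `ρ i : H i → GL_{n_i}(K)` for
which the non-archimedean absolute values suffice, and in which any two members lie below a third
one in the sense of `ProperLe`: for instance a direct limit of linear groups over `K` along
restrictions of homomorphisms with finite kernel of linear algebraic groups. -/
def ProperUnion (K : Type u) [Field K] (G : Type w) [Group G] : Prop :=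
  ∃ (ι : Type w) (H : ι → Subgroup G) (n : ι → ℕ) (ρ : ∀ i, H i →* GL (Fin (n i)) K),
    (∀ g, ∃ i, g ∈ H i) ∧ (∀ i, NonarchProper (ρ i)) ∧
    ∀ i j, ∃ k, ProperLe (ρ i) (ρ k) ∧ ProperLe (ρ j) (ρ k)

theorem thin_of_properUnion {K : Type u} [Field K] {G : Type w} [Group G]
    (hG : ProperUnion K G) (T : Finset G) : ∃ N, Thin (Subgroup.closure (T : Set G)) N := by
  classical
  obtain ⟨ι, H, n, ρ, hcov, hprop, hdir⟩ := hG
  have key : ∀ (S : Finset G) (i : ι), ∃ j, ProperLe (ρ i) (ρ j) ∧ ∀ s ∈ S, s ∈ H j := by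
    intro S i
    induction S using Finset.induction_on with
    | empty => exact ⟨i, ProperLe.refl _, by simp⟩
    | insert a S _ ih =>
      obtain ⟨j, hij, hj⟩ := ih
      obtain ⟨k, hk⟩ := hcov a
      obtain ⟨l, hjl, hkl⟩ := hdir j k
      refine ⟨l, hij.trans hjl, ?_⟩
      intro s hs
      rcases Finset.mem_insert.1 hs with rfl | hs
      · exact hkl.1 hk
      · exact hjl.1 (hj s hs)
  obtain ⟨i₀, _⟩ := hcov 1
  obtain ⟨i, _, hTi⟩ := key T i₀
  have hcl : ∀ h ∈ Subgroup.closure (T : Set G), h ∈ H i := fun h hh =>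
    (Subgroup.closure_le (H i)).2 hTi hh
  let σ := (Fin (n i) × Fin (n i)) ⊕ (Fin (n i) × Fin (n i))
  let e : σ ≃ Fin (Fintype.card σ) := Fintype.equivFin σ
  obtain ⟨k, v, hv, hfin⟩ := hprop i T hTi
  refine ⟨k * Fintype.card σ, thin_of_local _ _ fun K' hK => ?_⟩
  obtain ⟨F, hF⟩ := hK
  obtain ⟨j, ⟨hij, hij1, hij2⟩, hSj⟩ := key (T ∪ F) i
  have hcS : Subgroup.closure ((T ∪ F : Finset G) : Set G) ≤ H j :=
    (Subgroup.closure_le (H j)).2 hSj
  have hKΓ : K' ≤ Subgroup.closure ((T ∪ F : Finset G) : Set G) := by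
    rw [← hF]
    apply Subgroup.closure_mono
    rw [Finset.coe_union]
    exact Set.subset_union_right
  obtain ⟨P, hP⟩ := hij1.ent
  let y : Subgroup.closure ((T ∪ F : Finset G) : Set G) → Fin (Fintype.card σ) → K :=
    fun g l => if hg : (g : G) ∈ H i then ent (ρ i ⟨g, hg⟩) (e.symm l) else 0
  have hy : ∀ (g : Subgroup.closure ((T ∪ F : Finset G) : Set G)) (hg : (g : G) ∈ H i) (s : σ),
      y g (e s) = ent (ρ i ⟨g, hg⟩) s := by
    intro g hg s
    simp only [y, dif_pos hg, Equiv.symm_apply_apply]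
  have h1 : Thin ((Subgroup.closure (T : Set G)).subgroupOf
      (Subgroup.closure ((T ∪ F : Finset G) : Set G))) (k * Fintype.card σ) := by
    refine thin_of_data' v hv _ y ?_ ((dbl (n j)).comp ((ρ j).comp (Subgroup.inclusion hcS)))
      (fun a b => MvPolynomial.rename e
        (match finSumFinEquiv.symm a, finSumFinEquiv.symm b with
          | Sum.inl a, Sum.inl b => P (Sum.inl (a, b))
          | Sum.inr a, Sum.inr b => P (Sum.inr (b, a))
          | Sum.inl _, Sum.inr _ => 0
          | Sum.inr _, Sum.inl _ => 0)) ?_ ?_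
    · intro B
      have h2 : ((fun h : Subgroup.closure ((T ∪ F : Finset G) : Set G) => (h : G)) ⁻¹'
          (Subtype.val '' {h : H i | (h : G) ∈ Subgroup.closure (T : Set G) ∧
            ∀ j s, v j (ent (ρ i h) s) ≤ B})).Finite :=
        ((hfin B).image _).preimage (Subtype.val_injective.injOn)
      refine h2.subset ?_
      rintro ⟨h, hS⟩ ⟨hT, hB⟩
      rw [Subgroup.mem_subgroupOf] at hT
      refine ⟨⟨h, hcl h hT⟩, ⟨hT, fun j s => ?_⟩, rfl⟩
      rw [← hy ⟨h, hS⟩ (hcl h hT) s]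
      exact hB j (e s)
    · rintro ⟨h, hS⟩ hT
      rw [Subgroup.mem_subgroupOf] at hT
      have hi := hcl h hT
      have hyh : (y ⟨h, hS⟩ ∘ e : σ → K) = ent (ρ i ⟨h, hi⟩) := funext fun s => hy ⟨h, hS⟩ hi s
      have hφ : ((dbl (n j)).comp ((ρ j).comp (Subgroup.inclusion hcS))) ⟨h, hS⟩ =
          dbl (n j) (((ρ j).comp (Subgroup.inclusion hij)) ⟨h, hi⟩) := rfl
      rw [hφ]
      intro a b
      rw [MvPolynomial.eval_rename, hyh]
      obtain ⟨a, rfl⟩ := (finSumFinEquiv (m := n j) (n := n j)).surjective a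
      obtain ⟨b, rfl⟩ := (finSumFinEquiv (m := n j) (n := n j)).surjective b
      rw [Equiv.symm_apply_apply, Equiv.symm_apply_apply]
      rcases a with a | a <;> rcases b with b | b
      · have h1 := dbl_pos (((ρ j).comp (Subgroup.inclusion hij)) ⟨h, hi⟩) (Sum.inl (a, b))
        rw [hP] at h1
        exact h1
      · rw [dbl_apply]
        simp
      · rw [dbl_apply]
        simp
      · have h1 := dbl_pos (((ρ j).comp (Subgroup.inclusion hij)) ⟨h, hi⟩) (Sum.inr (b, a))
        rw [hP] at h1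
        exact h1
    · intro c R
      obtain ⟨B, hB⟩ := hij2 (v c) (hv c) R
      refine ⟨B, ?_⟩
      rintro ⟨h, hS⟩ hT hR l
      rw [Subgroup.mem_subgroupOf] at hT
      have hi := hcl h hT
      have h1 := hy ⟨h, hS⟩ hi (e.symm l)
      rw [Equiv.apply_symm_apply] at h1
      rw [h1]
      refine hB ⟨h, hi⟩ (fun s => ?_) _
      rw [← dbl_pos]
      exact hR _ _
  have h2 := h1.comap (Subgroup.inclusion hKΓ) (Subgroup.inclusion_injective hKΓ)
  have h3 : ((Subgroup.closure (T : Set G)).subgroupOf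
      (Subgroup.closure ((T ∪ F : Finset G) : Set G))).comap (Subgroup.inclusion hKΓ) =
      (Subgroup.closure (T : Set G)).subgroupOf K' := by
    ext x
    simp only [Subgroup.mem_comap, Subgroup.mem_subgroupOf, Subgroup.coe_inclusion]
  rw [h3] at h2
  exact h2

end Pool.Agent.Helper58.GI
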