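import Pool.Agent.Helper58.GI.PolyOver
import Pool.Agent.Helper61.Apc.Final

/-!
GLINF GL10. Unit groups of locally finite-dimensional algebras in positive characteristic.

Proof. `T` a finite set of units, `B` a finite-dimensional subalgebra which contains the elements of
`T` and their inverses, `e` a basis of `B`, `d` its length; then `⟨T⟩ ⊆ B`; `y h l` = the coordinate `l`
of `h` (put `0` if `h ∉ B`). Let `E` be the finite set of the structure constants of `e` and of the coordinates of
`1`, of the elements of `T` and of their inverses: the coordinates of all elements of `⟨T⟩` lie in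
`Subring.closure E` (closure induction). `v` = the absolute values of `exists_places_charP_of` for `E` (see
`enoughPlaces_charP` in `Helper61/Apc/Final.lean` for the three arguments; they are non-archimedean). An
element of `B` is determined by its coordinates: finiteness. For `S ⊇ T` let `B'` be a
finite-dimensional subalgebra which contains `B` and `S` and the inverses of `S` (apply `hA` to a basis of `B`,
`S` and the inverses), `m` its dimension, `e'` a basis, `φ h` = the matrix of left multiplication by `h` on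
`B'` (`Algebra.lmul`, `LinearMap.toMatrix`; `⟨S⟩ ⊆ B'`). For `h = ∑ l, y h l • e l` in `⟨T⟩` the entries of `φ h` are
`∑ l, y h l * (φ (e l))_(a b)`: linear polynomials `P`. And the coordinates of `h = φ h (1)` in `e'` are linear in
the entries of `φ h`, and `y h l` is a linear function of `h ∈ B'` (extend the coordinate function from `B` to `B'`,
`LinearMap.exists_extend`): linear polynomials `Q`.
-/

set_option autoImplicit false

namespace Pool.Agent.Helper58.GI

open Pool.Agent.Helper65.TH Pool.Agent.Helper61.Apc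

universe u w

/-- every finite subset lies in a finite-dimensional subalgebra -/
def LocFinDim (K : Type u) (A : Type w) [Field K] [Ring A] [Algebra K A] : Prop :=
  ∀ s : Finset A, ∃ B : Subalgebra K A, Module.Finite K B ∧ ∀ a ∈ s, a ∈ B

private theorem mem_of_closure {K : Type u} [Field K] {A : Type w} [Ring A] [Algebra K A]
    (B : Subalgebra K A) (S : Finset Aˣ)
    (hS : ∀ x ∈ S, (x : A) ∈ B ∧ ((x⁻¹ : Aˣ) : A) ∈ B) (h : Aˣ)
    (hh : h ∈ Subgroup.closure (S : Set Aˣ)) : (h : A) ∈ B ∧ ((h⁻¹ : Aˣ) : A) ∈ B := by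
  induction hh using Subgroup.closure_induction with
  | mem x hx => exact hS x hx
  | one =>
    refine ⟨?_, ?_⟩
    · rw [Units.val_one]
      exact B.one_mem
    · rw [inv_one, Units.val_one]
      exact B.one_mem
  | mul x y _ _ hx hy =>
    refine ⟨?_, ?_⟩
    · rw [Units.val_mul]
      exact B.mul_mem hx.1 hy.1
    · rw [mul_inv_rev, Units.val_mul]
      exact B.mul_mem hy.2 hx.2
  | inv x _ hx =>
    refine ⟨hx.2, ?_⟩
    rw [inv_inv]
    exact hx.1

private theorem exists_subalgebra {K : Type u} [Field K] {A : Type w} [Ring A] [Algebra K A]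
    (hA : LocFinDim K A) (S : Finset Aˣ) (s : Finset A) :
    ∃ B : Subalgebra K A, Module.Finite K B ∧ (∀ a ∈ s, a ∈ B) ∧
      ∀ x ∈ S, (x : A) ∈ B ∧ ((x⁻¹ : Aˣ) : A) ∈ B := by
  classical
  obtain ⟨B, hB, hmem⟩ := hA (s ∪ (S.image (fun x : Aˣ => (x : A)) ∪
    S.image (fun x : Aˣ => ((x⁻¹ : Aˣ) : A))))
  refine ⟨B, hB, fun a ha => hmem a (Finset.mem_union_left _ ha), fun x hx => ⟨?_, ?_⟩⟩
  · exact hmem _ (Finset.mem_union_right _ (Finset.mem_union_left _
      (Finset.mem_image_of_mem _ hx)))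
  · exact hmem _ (Finset.mem_union_right _ (Finset.mem_union_right _
      (Finset.mem_image_of_mem _ hx)))

/-- the coordinates -/
private noncomputable def coordOf {K : Type u} [Field K] {A : Type w} [Ring A] [Algebra K A]
    (B : Subalgebra K A) {d : ℕ} (e : Module.Basis (Fin d) K B) (h : Aˣ) (l : Fin d) : K := by
  classical
  exact if hB : (h : A) ∈ B then e.repr ⟨(h : A), hB⟩ l else 0

private theorem coordOf_eq {K : Type u} [Field K] {A : Type w} [Ring A] [Algebra K A]
    (B : Subalgebra K A) {d : ℕ} (e : Module.Basis (Fin d) K B) (h : Aˣ) (l : Fin d)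
    (hB : (h : A) ∈ B) : coordOf B e h l = e.repr ⟨(h : A), hB⟩ l := by
  unfold coordOf
  rw [dif_pos hB]

private theorem coordOf_mul {K : Type u} [Field K] {A : Type w} [Ring A] [Algebra K A]
    (B : Subalgebra K A) {d : ℕ} (e : Module.Basis (Fin d) K B) (x y : Aˣ) (l : Fin d)
    (hx : (x : A) ∈ B) (hy : (y : A) ∈ B) : coordOf B e (x * y) l =
      ∑ i, ∑ j, coordOf B e x i * coordOf B e y j * e.repr (e i * e j) l := by
  have hxy : ((x * y : Aˣ) : A) ∈ B := by
    rw [Units.val_mul]
    exact B.mul_mem hx hy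
  rw [coordOf_eq B e _ l hxy]
  have h1 : (⟨((x * y : Aˣ) : A), hxy⟩ : B) = ⟨(x : A), hx⟩ * ⟨(y : A), hy⟩ :=
    Subtype.ext (Units.val_mul x y)
  have h2 := e.sum_repr ⟨(x : A), hx⟩
  have h3 := e.sum_repr ⟨(y : A), hy⟩
  rw [h1]
  conv_lhs => rw [← h2, ← h3]
  rw [Finset.sum_mul_sum, map_sum, Finsupp.finsetSum_apply]
  refine Finset.sum_congr rfl fun i _ => ?_
  rw [map_sum, Finsupp.finsetSum_apply]
  refine Finset.sum_congr rfl fun j _ => ?_
  rw [smul_mul_smul_comm, map_smul, Finsupp.smul_apply, smul_eq_mul, coordOf_eq B e x i hx,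
    coordOf_eq B e y j hy]

theorem polyOver_units {K : Type u} [Field K] (p : ℕ) [Fact p.Prime] [CharP K p] {A : Type w}
    [Ring A] [Algebra K A] (hA : LocFinDim K A) (T : Finset Aˣ) : PolyOver.{u} T := by
  classical
  obtain ⟨B, hBfin, -, hBT⟩ := exists_subalgebra hA T ∅
  let d := Module.finrank K B
  let e : Module.Basis (Fin d) K B := Module.finBasis K B
  have hmem : ∀ h ∈ Subgroup.closure (T : Set Aˣ), (h : A) ∈ B ∧ ((h⁻¹ : Aˣ) : A) ∈ B :=
    fun h hh => mem_of_closure B T hBT h hh
  -- the finite set of constants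
  let E : Finset K := (Finset.univ.image fun q : Fin d × Fin d × Fin d =>
      e.repr (e q.1 * e q.2.1) q.2.2) ∪
    ((Finset.univ.image fun l : Fin d => coordOf B e (1 : Aˣ) l) ∪
    ((T ×ˢ Finset.univ).image (fun q : Aˣ × Fin d => coordOf B e q.1 q.2) ∪
      (T ×ˢ Finset.univ).image (fun q : Aˣ × Fin d => coordOf B e q.1⁻¹ q.2)))
  have hE1 : ∀ i j l, e.repr (e i * e j) l ∈ Subring.closure (E : Set K) := by
    intro i j l
    apply Subring.subset_closure
    exact Finset.mem_coe.2 (Finset.mem_union_left _ (Finset.mem_image.2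
      ⟨(i, j, l), Finset.mem_univ _, rfl⟩))
  have hE2 : ∀ l, coordOf B e (1 : Aˣ) l ∈ Subring.closure (E : Set K) := by
    intro l
    apply Subring.subset_closure
    exact Finset.mem_coe.2 (Finset.mem_union_right _ (Finset.mem_union_left _
      (Finset.mem_image.2 ⟨l, Finset.mem_univ _, rfl⟩)))
  have hE3 : ∀ x ∈ T, ∀ l, coordOf B e x l ∈ Subring.closure (E : Set K) := by
    intro x hx l
    apply Subring.subset_closure
    exact Finset.mem_coe.2 (Finset.mem_union_right _ (Finset.mem_union_right _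
      (Finset.mem_union_left _ (Finset.mem_image.2 ⟨(x, l),
        Finset.mem_product.2 ⟨hx, Finset.mem_univ _⟩, rfl⟩))))
  have hE4 : ∀ x ∈ T, ∀ l, coordOf B e x⁻¹ l ∈ Subring.closure (E : Set K) := by
    intro x hx l
    apply Subring.subset_closure
    exact Finset.mem_coe.2 (Finset.mem_union_right _ (Finset.mem_union_right _
      (Finset.mem_union_right _ (Finset.mem_image.2 ⟨(x, l),
        Finset.mem_product.2 ⟨hx, Finset.mem_univ _⟩, rfl⟩))))
  have hEmul : ∀ x y : Aˣ, (x : A) ∈ B → (y : A) ∈ B →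
      (∀ l, coordOf B e x l ∈ Subring.closure (E : Set K)) →
      (∀ l, coordOf B e y l ∈ Subring.closure (E : Set K)) →
      ∀ l, coordOf B e (x * y) l ∈ Subring.closure (E : Set K) := by
    intro x y hx hy h1 h2 l
    rw [coordOf_mul B e x y l hx hy]
    exact Subring.sum_mem _ fun i _ => Subring.sum_mem _ fun j _ =>
      Subring.mul_mem _ (Subring.mul_mem _ (h1 i) (h2 j)) (hE1 i j l)
  have hcl : ∀ h ∈ Subgroup.closure (T : Set Aˣ),
      ((h : A) ∈ B ∧ ((h⁻¹ : Aˣ) : A) ∈ B) ∧
      (∀ l, coordOf B e h l ∈ Subring.closure (E : Set K)) ∧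
      ∀ l, coordOf B e h⁻¹ l ∈ Subring.closure (E : Set K) := by
    intro h hh
    induction hh using Subgroup.closure_induction with
    | mem x hx => exact ⟨hBT x hx, hE3 x hx, hE4 x hx⟩
    | one =>
      refine ⟨hmem 1 (Subgroup.one_mem _), hE2, ?_⟩
      rw [inv_one]
      exact hE2
    | mul x y hx hy h1 h2 =>
      refine ⟨hmem _ (Subgroup.mul_mem _ hx hy), hEmul x y h1.1.1 h2.1.1 h1.2.1 h2.2.1, ?_⟩
      rw [mul_inv_rev]
      exact hEmul y⁻¹ x⁻¹ h2.1.2 h1.1.2 h2.2.2 h1.2.2
    | inv x hx h1 =>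
      refine ⟨hmem _ (Subgroup.inv_mem _ hx), h1.2.2, ?_⟩
      rw [inv_inv]
      exact h1.2.1
  obtain ⟨n, v, hv, hfin⟩ := exists_places_charP_of (K := K) p
    (fun A L _ _ _ _ _ v hv => exists_abv_fractionField v hv)
    (fun F E _ _ _ _ v hv => exists_extensions v hv)
    (fun F E _ _ _ v hv => exists_abv_extension v hv) E
  refine ⟨K, inferInstance, d, n, coordOf B e, v, hv, ?_, ?_⟩
  · intro C
    refine Set.Finite.of_finite_image (f := fun h => coordOf B e h) ?_ ?_
    · refine (Set.Finite.pi (t := fun _ : Fin d => {x : K | x ∈ Subring.closure (E : Set K) ∧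
        ∀ i, v i x ≤ C}) (fun _ => hfin C)).subset ?_
      rintro z ⟨h, ⟨hh, hle⟩, rfl⟩
      rw [Set.mem_univ_pi]
      exact fun l => ⟨(hcl h hh).2.1 l, fun i => hle i l⟩
    · rintro x ⟨hx, -⟩ y ⟨hy, -⟩ hxy
      have h1 := (hmem x hx).1
      have h2 := (hmem y hy).1
      have h3 : (⟨(x : A), h1⟩ : B) = ⟨(y : A), h2⟩ := by
        apply e.repr.injective
        ext l
        have h4 := congrFun hxy l
        simp only at h4
        rwa [coordOf_eq B e x l h1, coordOf_eq B e y l h2] at h4
      exact Units.ext (congrArg Subtype.val h3)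
  · intro S hTS
    obtain ⟨B', hB'fin, hB'e, hB'S⟩ := exists_subalgebra hA S
      (Finset.univ.image fun i : Fin d => (e i : A))
    have hle : ∀ b : B, (b : A) ∈ B' := by
      intro b
      have h1 := e.sum_repr b
      have h2 : (b : A) = ∑ i, e.repr b i • (e i : A) := by
        conv_lhs => rw [← h1]
        rw [AddSubmonoidClass.coe_finsetSum]
        rfl
      rw [h2]
      exact Subalgebra.sum_mem _ fun i _ => Subalgebra.smul_mem _
        (hB'e _ (Finset.mem_image.2 ⟨i, Finset.mem_univ _, rfl⟩)) _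
    have hBB' : B ≤ B' := fun a ha => hle ⟨a, ha⟩
    let ι : B →ₗ[K] B' := (Subalgebra.inclusion hBB').toLinearMap
    have hι : Function.Injective ι := Subalgebra.inclusion_injective hBB'
    obtain ⟨g, hg⟩ := LinearMap.exists_leftInverse_of_injective ι (LinearMap.ker_eq_bot.2 hι)
    have hmemS : ∀ h ∈ Subgroup.closure (S : Set Aˣ), (h : A) ∈ B' ∧ ((h⁻¹ : Aˣ) : A) ∈ B' :=
      fun h hh => mem_of_closure B' S hB'S h hh
    let m := Module.finrank K B'
    let e' : Module.Basis (Fin m) K B' := Module.finBasis K B'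
    let ψ : Subgroup.closure (S : Set Aˣ) →* B'ˣ :=
      { toFun := fun h => ⟨⟨((h : Aˣ) : A), (hmemS h h.2).1⟩,
          ⟨(((h : Aˣ)⁻¹ : Aˣ) : A), (hmemS h h.2).2⟩,
          Subtype.ext (Units.mul_inv (h : Aˣ)), Subtype.ext (Units.inv_mul (h : Aˣ))⟩
        map_one' := Units.ext (Subtype.ext rfl)
        map_mul' := fun x y => Units.ext (Subtype.ext rfl) }
    let φ : Subgroup.closure (S : Set Aˣ) →* GL (Fin m) K :=
      (Units.map ((Algebra.leftMulMatrix e' : B' →ₐ[K] Matrix (Fin m) (Fin m) K) :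
        B' →* Matrix (Fin m) (Fin m) K)).comp ψ
    have hφ : ∀ h : Subgroup.closure (S : Set Aˣ), (φ h : Matrix (Fin m) (Fin m) K) =
        Algebra.leftMulMatrix e' ⟨((h : Aˣ) : A), (hmemS h h.2).1⟩ := fun h => rfl
    refine ⟨m, φ, fun a b => ∑ l, MvPolynomial.X l *
        MvPolynomial.C (Algebra.leftMulMatrix e' (ι (e l)) a b),
      fun l => ∑ a, ∑ b, MvPolynomial.X (a, b) *
        MvPolynomial.C (e'.repr 1 b * e.repr (g (e' a)) l), ?_⟩
    intro h hh
    have hB := (hmem h hh).1
    have hιh : ι ⟨((h : Aˣ) : A), hB⟩ = ⟨((h : Aˣ) : A), (hmemS h h.2).1⟩ := Subtype.ext rfl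
    refine ⟨?_, ?_⟩
    · intro a b
      rw [hφ, ← hιh]
      have h1 := e.sum_repr ⟨((h : Aˣ) : A), hB⟩
      conv_lhs => rw [← h1]
      rw [map_sum, map_sum, Matrix.sum_apply, map_sum]
      refine Finset.sum_congr rfl fun l _ => ?_
      rw [map_smul, map_smul, Matrix.smul_apply, smul_eq_mul, MvPolynomial.eval_mul,
        MvPolynomial.eval_X, MvPolynomial.eval_C, coordOf_eq B e _ l hB]
    · intro l
      have h2 : g ⟨((h : Aˣ) : A), (hmemS h h.2).1⟩ = ⟨((h : Aˣ) : A), hB⟩ := by
        rw [← hιh]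
        exact LinearMap.congr_fun hg _
      have h3 : ∀ a, e'.repr ⟨((h : Aˣ) : A), (hmemS h h.2).1⟩ a =
          ∑ b, (φ h : Matrix (Fin m) (Fin m) K) a b * e'.repr 1 b := by
        intro a
        have h4 := Algebra.leftMulMatrix_mulVec_repr e'
          (⟨((h : Aˣ) : A), (hmemS h h.2).1⟩ : B') 1
        have h5 := congrFun h4 a
        rw [mul_one] at h5
        rw [← h5, hφ]
        rfl
      rw [coordOf_eq B e _ l hB, ← h2]
      have h6 := e'.sum_repr ⟨((h : Aˣ) : A), (hmemS h h.2).1⟩
      conv_lhs => rw [← h6]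
      rw [map_sum, map_sum, Finsupp.finsetSum_apply, map_sum]
      refine Finset.sum_congr rfl fun a _ => ?_
      rw [map_smul, map_smul, Finsupp.smul_apply, smul_eq_mul, h3, Finset.sum_mul, map_sum]
      refine Finset.sum_congr rfl fun b _ => ?_
      rw [MvPolynomial.eval_mul, MvPolynomial.eval_X, MvPolynomial.eval_C]
      ring

end Pool.Agent.Helper58.GI
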