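import Pool.Agent.Helper65.TH.Basic

/-!
GLINF GL11. Thinness from finitely many homomorphisms (proof: helper78).

Proof. `N = ∑ i, N i`, with an equivalence `(Σ i, Fin (N i)) ≃ Fin N` (`finSigmaFinEquiv`). For finite `F`
and `ε` take `g i, E i` from `hthin i` for `F.image (φ i)` (at scale `ε`) and put `g x (i, l) = g i (φ i x) l`. A
chain in a coset of `⟨T⟩` on which `g` changes by at most `1` is mapped by `φ i` to such a chain for
`⟨φ i T⟩` (`Chain.map`; `Subgroup.closure` of the image), so `φ i (x⁻¹ z) ∈ E i` for all `i`; and `x⁻¹ z ∈ ⟨T⟩`. The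
set of `h ∈ ⟨T⟩` with `φ i h ∈ E i` for all `i` is finite: it is a finite union of sets of the form
`{h ∈ ⟨T⟩ | ∀ i, φ i h = e i}`, each empty or a translate of the finite set `hker` (see the end of
`uniformOver_of_hom` in `Helper61/Apc/Linear.lean`).
-/

set_option autoImplicit false

namespace Pool.Agent.Helper58.GI

open Pool.Agent.Helper65.TH

theorem thin_of_family {G : Type*} [Group G] [DecidableEq G] (T : Finset G) {n : ℕ}
    {H : Fin n → Type*} [∀ i, Group (H i)] [∀ i, DecidableEq (H i)] (φ : ∀ i, G →* H i)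
    (hthin : ∀ i, ∃ N, Thin (Subgroup.closure ((T.image (φ i) : Finset (H i)) : Set (H i))) N)
    (hker : {g : G | g ∈ Subgroup.closure (T : Set G) ∧ ∀ i, φ i g = 1}.Finite) :
    ∃ N, Thin (Subgroup.closure (T : Set G)) N := by
  classical
  choose N hN using hthin
  refine ⟨∑ i, N i, fun F ε hε => ?_⟩
  choose γ E hstep hlight using fun i => hN i (F.image (φ i)) ε hε
  have hfin : {h : G | h ∈ Subgroup.closure (T : Set G) ∧ ∀ i, φ i h ∈ E i}.Finite := by
    have hpi : {e : ∀ i, H i | ∀ i, e i ∈ (E i : Set (H i))}.Finite :=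
      Set.Finite.pi' (fun i => (E i).finite_toSet)
    have hcover : {h : G | h ∈ Subgroup.closure (T : Set G) ∧ ∀ i, φ i h ∈ E i} ⊆
        ⋃ e ∈ {e : ∀ i, H i | ∀ i, e i ∈ (E i : Set (H i))},
          {h : G | h ∈ Subgroup.closure (T : Set G) ∧ ∀ i, φ i h = e i} := by
      rintro h ⟨hh, hhE⟩
      simp only [Set.mem_iUnion]
      exact ⟨fun i => φ i h, fun i => hhE i, hh, fun _ => rfl⟩
    refine (hpi.biUnion fun e _ => ?_).subset hcover
    by_cases he : ∃ g₀ ∈ Subgroup.closure (T : Set G), ∀ i, φ i g₀ = e i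
    · obtain ⟨g₀, hg₀, hφ⟩ := he
      refine (hker.image (fun g => g₀ * g)).subset ?_
      rintro g ⟨hg, hge⟩
      refine ⟨g₀⁻¹ * g, ⟨Subgroup.mul_mem _ (Subgroup.inv_mem _ hg₀) hg, fun i => ?_⟩, by simp⟩
      rw [map_mul, map_inv, hge i, hφ i, inv_mul_cancel]
    · have hempty : {h : G | h ∈ Subgroup.closure (T : Set G) ∧ ∀ i, φ i h = e i} = ∅ := by
        rw [Set.eq_empty_iff_forall_notMem]
        rintro g ⟨hg, hge⟩
        exact he ⟨g, hg, hge⟩
      rw [hempty]
      exact Set.finite_empty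
  refine ⟨fun x m => γ (finSigmaFinEquiv.symm m).1 (φ (finSigmaFinEquiv.symm m).1 x)
    (finSigmaFinEquiv.symm m).2, hfin.toFinset, ?_, ?_⟩
  · intro x s hs m
    have h1 := hstep (finSigmaFinEquiv.symm m).1 (φ (finSigmaFinEquiv.symm m).1 x)
      (φ (finSigmaFinEquiv.symm m).1 s) (Finset.mem_image_of_mem _ hs) (finSigmaFinEquiv.symm m).2
    rw [← map_mul] at h1
    exact h1
  · intro x y h
    rw [Set.Finite.mem_toFinset]
    refine ⟨h.mem_subgroup _ (fun s hs => hs.2), fun i => ?_⟩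
    have hc : Chain {s | s ∈ F.image (φ i) ∧
        s ∈ Subgroup.closure ((T.image (φ i) : Finset (H i)) : Set (H i))}
        (fun b => Near (γ i b) (γ i (φ i x)) 1) (φ i x) (φ i y) := by
      refine h.map (φ i) ?_
      intro a b hs hb
      refine ⟨⟨?_, ?_⟩, ?_⟩
      · rw [← map_inv, ← map_mul]
        exact Finset.mem_image_of_mem _ hs.1
      · rw [← map_inv, ← map_mul, Finset.coe_image, ← MonoidHom.map_closure]
        exact Subgroup.mem_map_of_mem _ hs.2
      · intro l
        have key : ∀ p q : (Σ i, Fin (N i)), p = q →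
            |γ p.1 (φ p.1 b) p.2 - γ p.1 (φ p.1 x) p.2| ≤ 1 →
            |γ q.1 (φ q.1 b) q.2 - γ q.1 (φ q.1 x) q.2| ≤ 1 := by
          rintro p _ rfl hp
          exact hp
        exact key _ ⟨i, l⟩ (Equiv.symm_apply_apply _ _) (hb (finSigmaFinEquiv ⟨i, l⟩))
    have h3 := hlight i _ _ hc
    rwa [← map_inv, ← map_mul] at h3

end Pool.Agent.Helper58.GI
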