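import Pool.Agent.Helper58.GI.Units
import Pool.Agent.Helper58.GI.Family
import Pool.Agent.Helper58.GI.Tower2
import Pool.Agent.Helper65.TH.Criterion
import Pool.Agent.Helper65.TH.ThinAsdim

/-!
GLINF, assembly: from thinness of all finitely generated subgroups to the conclusion; families of
homomorphisms; unit groups of algebras.
-/

set_option autoImplicit false

namespace Pool.Agent.Helper58.GI

open Pool.Agent.Helper65.TH Pool.Agent.Helper61.Apc

universe u v w

/-- thinness of all subgroups `⟨T⟩` gives the conclusion -/
theorem conclusion_of_closure {G : Type v} [Group G] [MetricSpace G]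
    (hinv : ∀ a b c : G, dist (a * b) (a * c) = dist b c)
    (hprop : ∀ r : ℝ, (Metric.closedBall (1 : G) r).Finite)
    (h : ∀ T : Finset G, ∃ N, Thin (Subgroup.closure (T : Set G)) N) :
    Pool.Agent.Helper65.TH.Conclusion G := by
  have hthin : ∀ H : Subgroup G, H.FG → ∃ N, Thin H N := by
    rintro H ⟨T, rfl⟩
    exact h T
  refine conclusion_of_thin hinv hprop ?_ hthin
  intro H hH
  obtain ⟨N, hN⟩ := hthin H hH
  exact ⟨2 ^ N, asdim_of_thin_subgroup hN⟩

open Classical in
/-- families of homomorphisms -/
theorem thin_of_homs {G : Type v} [Group G] (T : Finset G) {n : ℕ} {H : Fin n → Type w}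
    [∀ i, Group (H i)] (φ : ∀ i, G →* H i)
    (hthin : ∀ i, ∃ N, Thin (Subgroup.closure ((T.image (φ i) : Finset (H i)) : Set (H i))) N)
    (hker : {g : G | g ∈ Subgroup.closure (T : Set G) ∧ ∀ i, φ i g = 1}.Finite) :
    ∃ N, Thin (Subgroup.closure (T : Set G)) N :=
  thin_of_family T φ hthin hker

/-- unit groups of finite-dimensional algebras over good fields -/
theorem thin_units_finite {K : Type u} [Field K] (hK : GoodField K) {A : Type w} [Ring A]
    [Algebra K A] [Module.Finite K A] (T : Finset Aˣ) :
    ∃ N, Thin (Subgroup.closure (T : Set Aˣ)) N := by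
  classical
  refine thin_of_uniform T (uniformOver_of_linear.{u, w} (fun T' => ?_) T)
  let b : Module.Basis (Fin (Module.finrank K A)) K A := Module.finBasis K A
  let f : A →ₐ[K] Matrix (Fin (Module.finrank K A)) (Fin (Module.finrank K A)) K :=
    Algebra.leftMulMatrix b
  refine ⟨1, fun _ => K, fun _ => inferInstance, fun _ => Module.finrank K A,
    fun _ => Units.map f.toMonoidHom, fun _ => hK, ?_⟩
  refine (Set.finite_singleton (1 : Aˣ)).subset ?_
  rintro g ⟨-, hg⟩
  have h1 := hg 0
  rw [Set.mem_singleton_iff]
  apply Units.ext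
  apply Algebra.leftMulMatrix_injective b
  have h2 := congrArg Units.val h1
  simpa [f] using h2

/-- unit groups of locally finite-dimensional algebras in positive characteristic -/
theorem thin_units_charP {K : Type u} [Field K] (hK : ∃ p : ℕ, p.Prime ∧ CharP K p) {A : Type w}
    [Ring A] [Algebra K A] (hA : LocFinDim K A) (T : Finset Aˣ) :
    ∃ N, Thin (Subgroup.closure (T : Set Aˣ)) N := by
  obtain ⟨p, hp, hKp⟩ := hK
  have : Fact p.Prime := ⟨hp⟩
  exact thin_of_polyOver T (polyOver_units p hA T)

/-- thinness is inherited along injective homomorphisms -/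
theorem thin_of_injective {H : Type v} {B : Type w} [Group H] [Group B] (f : H →* B)
    (hf : Function.Injective f)
    (h : ∀ T : Finset B, ∃ N, Thin (Subgroup.closure (T : Set B)) N) (T : Finset H) :
    ∃ N, Thin (Subgroup.closure (T : Set H)) N := by
  classical
  obtain ⟨N, hN⟩ := h (T.image f)
  refine ⟨N, ?_⟩
  have h1 := hN.comap f hf
  have h2 : (Subgroup.closure ((T.image f : Finset B) : Set B)).comap f =
      Subgroup.closure (T : Set H) := by
    rw [Finset.coe_image, ← MonoidHom.map_closure, Subgroup.comap_map_eq_self_of_injective hf]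
  rwa [h2] at h1

/-- Groups of linear type: `G` is a proper union of linear groups over some field, or `G` embeds
into the unit group of an algebra over a field `K`, which is locally finite-dimensional and `K` has
positive characteristic, or which is finite-dimensional and `K` consists of algebraic numbers. -/
def LinType (G : Type w) [Group G] : Prop :=
  ∃ (K : Type u) (_ : Field K), ProperUnion K G ∨ ∃ (A : Type w) (_ : Ring A) (_ : Algebra K A),
    (((∃ p : ℕ, p.Prime ∧ CharP K p) ∧ LocFinDim K A) ∨ (GoodField K ∧ Module.Finite K A)) ∧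
    ∃ f : G →* Aˣ, Function.Injective f

theorem thin_of_linType {G : Type w} [Group G] (hG : LinType.{u, w} G) (T : Finset G) :
    ∃ N, Thin (Subgroup.closure (T : Set G)) N := by
  obtain ⟨K, _, hG | ⟨A, _, _, hA, f, hf⟩⟩ := hG
  · exact thin_of_properUnion hG T
  · refine thin_of_injective f hf (fun T' => ?_) T
    rcases hA with ⟨hK, hA⟩ | ⟨hK, hA⟩
    · exact thin_units_charP hK hA T'
    · exact thin_units_finite hK T'

end Pool.Agent.Helper58.GI
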