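import Pool.Agent.Helper65.TH.Basic

/-!
GLINF GL4. A real function along a chain which visits finitely many classes.

Proof. Let `P = Fintype.card C`, `D = δ + c + 1`. Suppose `u y - u x > P * D` (the case
`u x - u y > P * D` is the same for `-u`). For `k ≤ P` the number `t k = u x + k * D` lies in
`[u x, u y]`; discrete intermediate value (induction on the chain): there is `z k` with
`Chain F Q x (z k)` and `t k ≤ u (z k) ≤ t k + c`. For `k < l` we get `u (z l) - u (z k) ≥ D - c > δ`,
so the `P + 1` classes `cl (z k)` are different, a contradiction.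
-/

set_option autoImplicit false

namespace Pool.Agent.Helper58.GI

open Pool.Agent.Helper65.TH

/-- discrete intermediate value theorem -/
private theorem chain_ivt {G : Type*} [Group G] {F : Set G} {Q : G → Prop} {x : G} (f : G → ℝ)
    (c : ℝ) (hc : 0 ≤ c) (hr : ∀ a b, Chain F Q x a → a⁻¹ * b ∈ F → f b ≤ f a + c) {y : G}
    (h : Chain F Q x y) (t : ℝ) (h1 : f x ≤ t) (h2 : t ≤ f y) :
    ∃ z, Chain F Q x z ∧ t ≤ f z ∧ f z ≤ t + c := by
  induction h with
  | refl => exact ⟨x, Chain.refl _ _ _, h2, by linarith⟩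
  | tail hab hbc ih =>
    rename_i b y
    by_cases hb : t ≤ f b
    · exact ih hb
    · have := hr _ _ hab hbc.1
      exact ⟨y, hab.tail hbc, h2, by linarith⟩

private theorem chain_range_up {G C : Type*} [Group G] [Fintype C] (F : Set G) (Q : G → Prop)
    (x : G) (cl : G → C) (f : G → ℝ) (δ c : ℝ) (hδ : 0 ≤ δ) (hc : 0 ≤ c)
    (hcl : ∀ a b, Chain F Q x a → Chain F Q x b → cl a = cl b → |f a - f b| ≤ δ)
    (hr : ∀ a b, Chain F Q x a → a⁻¹ * b ∈ F → f b ≤ f a + c) {y : G}
    (hy : Chain F Q x y) : f y ≤ f x + (Fintype.card C : ℝ) * (δ + c + 1) := by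
  by_contra hcon
  push Not at hcon
  set P := Fintype.card C with hPdef
  have hz : ∀ l : Fin (P + 1), ∃ z, Chain F Q x z ∧
      f x + (l : ℝ) * (δ + c + 1) ≤ f z ∧ f z ≤ f x + (l : ℝ) * (δ + c + 1) + c := by
    intro l
    refine chain_ivt f c hc hr hy _ ?_ ?_
    · have : (0 : ℝ) ≤ (l : ℝ) * (δ + c + 1) := by positivity
      linarith
    · have h1 : ((l : ℕ) : ℝ) ≤ P := by exact_mod_cast Nat.lt_succ_iff.1 l.2
      have : ((l : ℕ) : ℝ) * (δ + c + 1) ≤ P * (δ + c + 1) :=
        mul_le_mul_of_nonneg_right h1 (by positivity)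
      linarith
  choose z hz1 hz2 hz3 using hz
  obtain ⟨l, l', hne, heq⟩ := Fintype.exists_ne_map_eq_of_card_lt (fun l => cl (z l))
    (by rw [Fintype.card_fin]; omega)
  wlog hlt : l < l' generalizing l l'
  · exact this l' l hne.symm heq.symm (lt_of_le_of_ne (not_lt.1 hlt) hne.symm)
  have h1 : ((l : ℕ) : ℝ) + 1 ≤ (l' : ℕ) := by exact_mod_cast hlt
  have h2 := hcl _ _ (hz1 l') (hz1 l) heq.symm
  have h3 : f (z l') - f (z l) ≤ δ := (le_abs_self _).trans h2
  have h4 := hz2 l'
  have h5 := hz3 l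
  have h6 : (((l : ℕ) : ℝ) + 1) * (δ + c + 1) ≤ (l' : ℕ) * (δ + c + 1) :=
    mul_le_mul_of_nonneg_right h1 (by positivity)
  nlinarith

theorem chain_range {G C : Type*} [Group G] [Fintype C] (F : Set G) (Q : G → Prop) (x : G)
    (cl : G → C) (u : G → ℝ) (δ c : ℝ) (hδ : 0 ≤ δ) (hc : 0 ≤ c)
    (hcl : ∀ a b, Chain F Q x a → Chain F Q x b → cl a = cl b → |u a - u b| ≤ δ)
    (hstep : ∀ a b, Chain F Q x a → a⁻¹ * b ∈ F → |u b - u a| ≤ c) {y : G}
    (hy : Chain F Q x y) : |u y - u x| ≤ (Fintype.card C : ℝ) * (δ + c + 1) := by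
  rw [abs_le]
  constructor
  · have h1 := chain_range_up F Q x cl (fun a => - u a) δ c hδ hc
      (fun a b ha hb hab => by
        have h2 := hcl a b ha hb hab
        rw [abs_sub_comm] at h2
        have h3 : -u a - -u b = u b - u a := by ring
        rw [h3]
        exact h2)
      (fun a b ha hab => by
        have h2 := (abs_le.1 (hstep a b ha hab)).1
        linarith) hy
    linarith
  · have h1 := chain_range_up F Q x cl u δ c hδ hc hcl
      (fun a b ha hab => by
        have h2 := (abs_le.1 (hstep a b ha hab)).2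
        linarith) hy
    linarith

end Pool.Agent.Helper58.GI
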