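import Mathlib

/-!
GLINF GL6. Triangular form by column operations with entries of value at most one (Iwasawa
decomposition for a non-archimedean absolute value).

Proof. Induction on `m`. For `m + 1`: row `0` of `X` is not zero; let `c` be a column with `v (X 0 c)`
maximal, so it is nonzero. Multiply `X` on the right by the permutation matrix which exchanges `0` and
`c`, then by the matrix `1 - ∑ j ≠ 0, (X 0 j / X 0 0) E_(0 j)`: both and their inverses have entries of
value at most `1`, and row `0` becomes `(X 0 0, 0, ..., 0)`. The remaining block (rows and columns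
`≠ 0`) has a determinant which is a unit; write it as `b' * κ'` and take
`b = [[X00, 0], [w, b']]`, `κ = diag (1, κ')` times the inverse of the two column operations. Products
of matrices with entries of value at most `1` have entries of value at most `1` (ultrametric).
-/

set_option autoImplicit false

namespace Pool.Agent.Helper58.GI

open Finset

private lemma sum_le_one {K : Type*} [Field K] {v : AbsoluteValue K ℝ} (hv : IsNonarchimedean v)
    {ι : Type*} (s : Finset ι) (f : ι → K) (h : ∀ i ∈ s, v (f i) ≤ 1) :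
    v (∑ i ∈ s, f i) ≤ 1 := by
  classical
  induction s using Finset.induction_on with
  | empty => simp
  | insert a s ha ih =>
    rw [Finset.sum_insert ha]
    refine (hv _ _).trans (max_le (h a (mem_insert_self a s)) (ih fun i hi => h i (mem_insert_of_mem hi)))

private lemma mul_le_one_entries {K : Type*} [Field K] {v : AbsoluteValue K ℝ}
    (hv : IsNonarchimedean v) {m : ℕ} {A B : Matrix (Fin m) (Fin m) K}
    (hA : ∀ i j, v (A i j) ≤ 1) (hB : ∀ i j, v (B i j) ≤ 1) (i j : Fin m) :
    v ((A * B) i j) ≤ 1 := by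
  rw [Matrix.mul_apply]
  refine sum_le_one hv _ _ fun l _ => ?_
  rw [map_mul]
  exact mul_le_one₀ (hA i l) (v.nonneg _) (hB l j)

/-- if rows `< k` are lower triangular and row `k` vanishes in the columns `≥ k` then `det = 0` -/
private lemma det_zero {K : Type*} [Field K] {m : ℕ} (Y : Matrix (Fin m) (Fin m) K) (k : Fin m)
    (h1 : ∀ i j : Fin m, i < k → i < j → Y i j = 0) (h2 : ∀ j, k ≤ j → Y k j = 0) :
    Y.det = 0 := by
  classical
  rw [Matrix.det_apply]
  refine Finset.sum_eq_zero fun σ _ => ?_
  have : ∃ i, Y (σ i) i = 0 := by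
    by_contra hcon
    push Not at hcon
    have hsub : (Finset.Iic k).map σ.symm.toEmbedding ⊆ Finset.Iio k := by
      intro i hi
      rw [Finset.mem_map] at hi
      obtain ⟨r, hr, rfl⟩ := hi
      rw [Finset.mem_Iic] at hr
      rw [Finset.mem_Iio]
      have h3 := hcon (σ.symm r)
      rw [Equiv.apply_symm_apply] at h3
      simp only [Equiv.coe_toEmbedding]
      rcases lt_or_eq_of_le hr with hr' | hr'
      · by_contra hc
        exact h3 (h1 r _ hr' (lt_of_lt_of_le hr' (not_lt.mp hc)))
      · by_contra hc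
        subst hr'
        exact h3 (h2 _ (not_lt.mp hc))
    have hc := Finset.card_le_card hsub
    rw [Finset.card_map, Fin.card_Iic, Fin.card_Iio] at hc
    omega
  obtain ⟨i, hi⟩ := this
  have hp : (∏ i, Y (σ i) i) = 0 := Finset.prod_eq_zero (Finset.mem_univ i) hi
  exact (congrArg (fun t => Equiv.Perm.sign σ • t) hp).trans (smul_zero _)

private lemma step {K : Type*} [Field K] {v : AbsoluteValue K ℝ} (hv : IsNonarchimedean v)
    {m : ℕ} (X : Matrix (Fin m) (Fin m) K) (hX : IsUnit X.det) (k : ℕ) (hk : k ≤ m) :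
    ∃ κ κ' : Matrix (Fin m) (Fin m) K, κ * κ' = 1 ∧ κ' * κ = 1 ∧
      (∀ i j : Fin m, (i : ℕ) < k → i < j → (X * κ') i j = 0) ∧
      (∀ i j, v (κ i j) ≤ 1) ∧ ∀ i j, v (κ' i j) ≤ 1 := by
  classical
  induction k with
  | zero =>
    refine ⟨1, 1, by simp, by simp, fun i j h => absurd h (Nat.not_lt_zero _), ?_, ?_⟩ <;>
    · intro i j
      rw [Matrix.one_apply]
      split_ifs <;> simp
  | succ k ih =>
    obtain ⟨κ, κ', e1, e2, hlow, hκ, hκ'⟩ := ih (by omega)
    set Y := X * κ' with hY
    let kk : Fin m := ⟨k, by omega⟩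
    have hYdet : Y.det ≠ 0 := by
      rw [hY, Matrix.det_mul]
      refine mul_ne_zero hX.ne_zero ?_
      have h : κ.det * κ'.det = 1 := by rw [← Matrix.det_mul, e1, Matrix.det_one]
      exact right_ne_zero_of_mul_eq_one h
    have hex : ∃ j, kk ≤ j ∧ Y kk j ≠ 0 := by
      by_contra hcon
      push Not at hcon
      exact hYdet (det_zero Y kk (fun i j h h' => hlow i j h h') hcon)
    obtain ⟨c, hc, hcmax⟩ := Finset.exists_max_image (Finset.Ici kk) (fun j => v (Y kk j))
      ⟨kk, by simp⟩
    rw [Finset.mem_Ici] at hc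
    have hYc : Y kk c ≠ 0 := by
      obtain ⟨j, hj, hj'⟩ := hex
      intro h0
      have := hcmax j (Finset.mem_Ici.mpr hj)
      simp only [h0, map_zero] at this
      exact hj' ((v.eq_zero).mp (le_antisymm this (v.nonneg _)))
    let σ : Equiv.Perm (Fin m) := Equiv.swap kk c
    have hσ : ∀ x, σ (σ x) = x := fun x => Equiv.swap_apply_self _ _ _
    let P : Matrix (Fin m) (Fin m) K := (1 : Matrix (Fin m) (Fin m) K).submatrix (Equiv.refl _) σ
    have hMP : ∀ M : Matrix (Fin m) (Fin m) K, M * P = M.submatrix id σ := by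
      intro M
      rw [Matrix.mul_submatrix_one]
      rfl
    have hPP : P * P = 1 := by
      rw [hMP]
      ext i j
      show (1 : Matrix (Fin m) (Fin m) K) i (σ (σ j)) = _
      rw [hσ]
    have hPle : ∀ i j, v (P i j) ≤ 1 := by
      intro i j
      simp only [P, Matrix.submatrix_apply, Matrix.one_apply]
      split_ifs <;> simp
    set Z := Y * P with hZ
    have hZa : ∀ i j, Z i j = Y i (σ j) := by
      intro i j
      rw [hZ, hMP]
      rfl
    have hZk : Z kk kk = Y kk c := by rw [hZa]; simp [σ]
    have hZk0 : Z kk kk ≠ 0 := by rw [hZk]; exact hYc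
    have hσge : ∀ j, kk ≤ j → kk ≤ σ j := by
      intro j hj
      by_cases h1 : j = kk
      · subst h1; simpa [σ] using hc
      · by_cases h2 : j = c
        · subst h2; simp [σ]
        · simp only [σ]; rw [Equiv.swap_apply_of_ne_of_ne h1 h2]; exact hj
    have hσlt : ∀ j, j < kk → σ j = j := by
      intro j hj
      simp only [σ]
      exact Equiv.swap_apply_of_ne_of_ne (ne_of_lt hj) (ne_of_lt (lt_of_lt_of_le hj hc))
    have hZlow : ∀ i j : Fin m, i < kk → i < j → Z i j = 0 := by
      intro i j hi hij
      rw [hZa]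
      apply hlow i _ hi
      by_cases hj : j < kk
      · rw [hσlt j hj]; exact hij
      · exact lt_of_lt_of_le hi (hσge j (not_lt.mp hj))
    let R : Matrix (Fin m) (Fin m) K := fun i j => if i = kk ∧ kk < j then Z kk j / Z kk kk else 0
    have hRR : R * R = 0 := by
      ext i j
      rw [Matrix.mul_apply, Matrix.zero_apply]
      refine Finset.sum_eq_zero fun l _ => ?_
      simp only [R]
      by_cases h1 : i = kk ∧ kk < l
      · rw [if_neg (show ¬ (l = kk ∧ kk < j) from fun h => absurd h.1 (ne_of_gt h1.2)), mul_zero]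
      · rw [if_neg h1, zero_mul]
    have hRle : ∀ i j, v (R i j) ≤ 1 := by
      intro i j
      simp only [R]
      split_ifs with h
      · rw [map_div₀, hZk, hZa]
        have hpos : 0 < v (Y kk c) := v.pos hYc
        rw [div_le_one hpos]
        exact hcmax _ (Finset.mem_Ici.mpr (hσge j h.2.le))
      · simp
    have h1le : ∀ i j : Fin m, v ((1 : Matrix (Fin m) (Fin m) K) i j) ≤ 1 := by
      intro i j
      rw [Matrix.one_apply]
      split_ifs <;> simp
    refine ⟨(1 + R) * P * κ, κ' * P * (1 - R), ?_, ?_, ?_, ?_, ?_⟩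
    · calc (1 + R) * P * κ * (κ' * P * (1 - R)) = (1 + R) * P * (κ * κ') * P * (1 - R) := by
            simp only [Matrix.mul_assoc]
        _ = (1 + R) * (P * P) * (1 - R) := by rw [e1, Matrix.mul_one]; simp only [Matrix.mul_assoc]
        _ = 1 - R * R := by rw [hPP, Matrix.mul_one]; noncomm_ring
        _ = 1 := by rw [hRR, sub_zero]
    · calc κ' * P * (1 - R) * ((1 + R) * P * κ) = κ' * P * ((1 - R) * (1 + R)) * P * κ := by
            simp only [Matrix.mul_assoc]
        _ = κ' * P * (1 - R * R) * P * κ := by congr 3; noncomm_ring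
        _ = κ' * (P * P) * κ := by rw [hRR, sub_zero, Matrix.mul_one]; simp only [Matrix.mul_assoc]
        _ = 1 := by rw [hPP, Matrix.mul_one, e2]
    · intro i j hi hij
      have e : X * (κ' * P * (1 - R)) = Z - Z * R := by
        rw [hZ, hY]
        simp only [Matrix.mul_assoc, Matrix.mul_sub, Matrix.mul_one]
      rw [e, Matrix.sub_apply]
      have hZR : (Z * R) i j = Z i kk * (if kk < j then Z kk j / Z kk kk else 0) := by
        rw [Matrix.mul_apply, Finset.sum_eq_single kk]
        · simp only [R, true_and]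
        · intro l _ hl
          simp only [R]
          rw [if_neg (fun h => hl h.1), mul_zero]
        · intro h; exact absurd (Finset.mem_univ _) h
      rw [hZR]
      rcases lt_or_eq_of_le (Nat.lt_succ_iff.mp hi) with hi' | hi'
      · have hi'' : i < kk := hi'
        rw [hZlow i j hi'' hij, hZlow i kk hi'' hi'', zero_mul, sub_zero]
      · have hi'' : i = kk := Fin.ext hi'
        subst hi''
        rw [if_pos hij, mul_div_cancel₀ _ hZk0, sub_self]
    · intro i j
      refine mul_le_one_entries hv (mul_le_one_entries hv ?_ hPle) hκ i j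
      intro i j
      rw [Matrix.add_apply]
      exact (hv _ _).trans (max_le (h1le i j) (hRle i j))
    · intro i j
      refine mul_le_one_entries hv (mul_le_one_entries hv hκ' hPle) ?_ i j
      intro i j
      rw [sub_eq_add_neg, Matrix.add_apply]
      refine (hv _ _).trans (max_le (h1le i j) ?_)
      rw [Matrix.neg_apply, v.map_neg]
      exact hRle i j

theorem exists_pivot {K : Type*} [Field K] {v : AbsoluteValue K ℝ} (hv : IsNonarchimedean v)
    {m : ℕ} (X : Matrix (Fin m) (Fin m) K) (hX : IsUnit X.det) :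
    ∃ b κ κ' : Matrix (Fin m) (Fin m) K, X = b * κ ∧ κ * κ' = 1 ∧ κ' * κ = 1 ∧
      (∀ i j, i < j → b i j = 0) ∧ (∀ i j, v (κ i j) ≤ 1) ∧ ∀ i j, v (κ' i j) ≤ 1 := by
  obtain ⟨κ, κ', e1, e2, h, h1, h2⟩ := step hv X hX m le_rfl
  exact ⟨X * κ', κ, κ', by rw [Matrix.mul_assoc, e2, Matrix.mul_one], e1, e2,
    fun i j hij => h i j i.2 hij, h1, h2⟩

end Pool.Agent.Helper58.GI
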