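import Pool.Agent.Helper58.GI.Minor
import Pool.Agent.Helper58.GI.Pivot
import Pool.Agent.Helper65.TH.Basic

/-!
GLINF GL7. The logarithms of the maxima of row minors are slow and light. Statements and proof plan:
helper58; Lean proofs: helper33.

Proof. `rmax_pos`: `X = b * κ` (`exists_pivot`), `rmax v X j = rmax v b j` (`rmax_mul_eq`), a product of
values of diagonal entries (`rmax_lower`), which are nonzero since `det b` is a unit
(`Matrix.det_of_lowerTriangular`).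
`rowLog_slow`: `rmax_mul_le` for `X, S` and for `X * S, S'`, and monotonicity of `log`.
`rowLog_light`: put `R0 = R`, `C = max 1 τ * exp (4 * R0)`. For every `z : Γ` choose
`φ z = b z * κ z` by `exists_pivot`. By `rmax_lower` the value of the diagonal entry `j` of `b z` is
`exp (rowLog z j - rowLog z (j - 1))` (`exp (rowLog z 0)` for `j = 0`). Claim: for every `z` with
`Chain T _ x z` the matrix `B = (b x)⁻¹ * b z` (lower triangular) satisfies
`v (B i i) ∈ [exp (-2 R0), exp (2 R0)]` and `v (B i k) ≤ v (B k k) * C ^ (i - k)` for `k ≤ i`. Start: `B = 1`.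
Step `z → z s`: `c = (b z)⁻¹ * b (z s) = κ z * φ s * (κ (z s))⁻¹` is lower triangular with entries of value
at most `τ`, `B' = B * c`, and `v (B' i k) ≤ max over k ≤ e ≤ i of v (B e e) * C ^ (i - e) * v (c e k)`; the
term `e = k` is `C ^ (i - k) * v (B' k k)`, the terms `e > k` are at most
`exp (2 R0) * C ^ (i - e) * τ ≤ C ^ (i - k) * exp (-2 R0) ≤ C ^ (i - k) * v (B' k k)`. At the end
`φ (x⁻¹ * y) = (κ x)⁻¹ * B * κ y` has entries of value at most `exp (2 R0) * C ^ m`.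
-/

set_option autoImplicit false

namespace Pool.Agent.Helper58.GI

open Pool.Agent.Helper65.TH

variable {K : Type*} [Field K] {m : ℕ}

/-- the logarithm of the maximum of the minors with rows `0, ..., j` -/
noncomputable def rowLog (v : AbsoluteValue K ℝ) (X : Matrix (Fin m) (Fin m) K) (j : Fin m) : ℝ :=
  Real.log (rmax v X j)

lemma diag_ne_zero {b : Matrix (Fin m) (Fin m) K} (hb : ∀ i j, i < j → b i j = 0)
    (hu : IsUnit b.det) (i : Fin m) : b i i ≠ 0 := by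
  have h1 : b.det = ∏ i, b i i := Matrix.det_of_isLowerTriangular b fun i j hij => hb i j hij
  have h2 : ∏ i, b i i ≠ 0 := by
    rw [← h1]
    exact hu.ne_zero
  exact Finset.prod_ne_zero_iff.1 h2 i (Finset.mem_univ i)

lemma inv_lower {b : Matrix (Fin m) (Fin m) K} (hb : ∀ i j, i < j → b i j = 0)
    (hu : IsUnit b.det) : ∀ i j, i < j → b⁻¹ i j = 0 := by
  have hi : Invertible b := b.invertibleOfIsUnitDet hu
  have h := Matrix.blockTriangular_inv_of_blockTriangular (M := b) (b := OrderDual.toDual)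
    fun i j hij => hb i j hij
  intro i j hij
  exact h hij

lemma mul_lower {b c : Matrix (Fin m) (Fin m) K} (hb : ∀ i j, i < j → b i j = 0)
    (hc : ∀ i j, i < j → c i j = 0) : ∀ i j, i < j → (b * c) i j = 0 := by
  intro i j hij
  rw [Matrix.mul_apply]
  refine Finset.sum_eq_zero fun e _ => ?_
  rcases lt_or_ge i e with h | h
  · rw [hb i e h, zero_mul]
  · rw [hc e j (lt_of_le_of_lt h hij), mul_zero]

lemma mul_diag {b c : Matrix (Fin m) (Fin m) K} (hb : ∀ i j, i < j → b i j = 0)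
    (hc : ∀ i j, i < j → c i j = 0) (i : Fin m) : (b * c) i i = b i i * c i i := by
  rw [Matrix.mul_apply]
  refine Finset.sum_eq_single i (fun e _ he => ?_) fun h => absurd (Finset.mem_univ i) h
  rcases lt_or_gt_of_ne he with h | h
  · rw [hc e i h, mul_zero]
  · rw [hb i e h, zero_mul]

lemma det_unit_of_factor {X b κ : Matrix (Fin m) (Fin m) K} (hX : IsUnit X.det)
    (h : X = b * κ) : IsUnit b.det := by
  rw [h, Matrix.det_mul] at hX
  exact isUnit_of_mul_isUnit_left hX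

lemma rmax_factor {v : AbsoluteValue K ℝ} (hv : IsNonarchimedean v)
    {X b κ κ' : Matrix (Fin m) (Fin m) K} (h : X = b * κ) (h1 : κ * κ' = 1)
    (hb : ∀ i j, i < j → b i j = 0) (hκ : ∀ i j, v (κ i j) ≤ 1) (hκ' : ∀ i j, v (κ' i j) ≤ 1)
    (j : Fin m) :
    rmax v X j = ∏ i : Fin ((j : ℕ) + 1), v (b (Fin.castLE (Nat.succ_le_of_lt j.2) i)
      (Fin.castLE (Nat.succ_le_of_lt j.2) i)) := by
  rw [h, rmax_mul_eq hv b κ κ' h1 hκ hκ', rmax_lower b hb]

theorem rmax_pos {v : AbsoluteValue K ℝ} (hv : IsNonarchimedean v) (X : Matrix (Fin m) (Fin m) K)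
    (hX : IsUnit X.det) (j : Fin m) : 0 < rmax v X j := by
  obtain ⟨b, κ, κ', h, h1, -, hb, hκ, hκ'⟩ := exists_pivot hv X hX
  rw [rmax_factor hv h h1 hb hκ hκ']
  refine Finset.prod_pos fun i _ => ?_
  exact v.pos (diag_ne_zero hb (det_unit_of_factor hX h) _)

theorem rowLog_slow {v : AbsoluteValue K ℝ} (hv : IsNonarchimedean v)
    (X S S' : Matrix (Fin m) (Fin m) K) (hX : IsUnit X.det) (hSS : S * S' = 1) {τ : ℝ}
    (hτ : 1 ≤ τ) (hS : ∀ a b, v (S a b) ≤ τ) (hS' : ∀ a b, v (S' a b) ≤ τ) (j : Fin m) :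
    |rowLog v (X * S) j - rowLog v X j| ≤ m * Real.log τ := by
  have hτ0 : (0 : ℝ) < τ := lt_of_lt_of_le zero_lt_one hτ
  have hSu : IsUnit S.det := by
    have h : S.det * S'.det = 1 := by rw [← Matrix.det_mul, hSS, Matrix.det_one]
    exact IsUnit.of_mul_eq_one _ h
  have hXS : IsUnit (X * S).det := by
    rw [Matrix.det_mul]
    exact hX.mul hSu
  have p1 := rmax_pos hv X hX j
  have p2 := rmax_pos hv (X * S) hXS j
  have q1 := rmax_mul_le hv X S hτ0.le hS j
  have q2 := rmax_mul_le hv (X * S) S' hτ0.le hS' j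
  rw [Matrix.mul_assoc, hSS, Matrix.mul_one] at q2
  have hpow : τ ^ ((j : ℕ) + 1) ≤ τ ^ m := pow_le_pow_right₀ hτ (Nat.succ_le_of_lt j.2)
  have hτm : (0 : ℝ) < τ ^ m := pow_pos hτ0 m
  have r1 : rmax v (X * S) j ≤ τ ^ m * rmax v X j :=
    q1.trans (mul_le_mul_of_nonneg_right hpow p1.le)
  have r2 : rmax v X j ≤ τ ^ m * rmax v (X * S) j :=
    q2.trans (mul_le_mul_of_nonneg_right hpow p2.le)
  have s1 := Real.log_le_log p2 r1
  have s2 := Real.log_le_log p1 r2
  rw [Real.log_mul hτm.ne' p1.ne', Real.log_pow] at s1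
  rw [Real.log_mul hτm.ne' p2.ne', Real.log_pow] at s2
  rw [abs_le]
  unfold rowLog
  constructor <;> linarith

/-- the diagonal entries in terms of the row minors -/
lemma log_diag {v : AbsoluteValue K ℝ} (hv : IsNonarchimedean v)
    {X b κ κ' : Matrix (Fin m) (Fin m) K} (hX : IsUnit X.det) (h : X = b * κ) (h1 : κ * κ' = 1)
    (hb : ∀ i j, i < j → b i j = 0) (hκ : ∀ i j, v (κ i j) ≤ 1) (hκ' : ∀ i j, v (κ' i j) ≤ 1)
    (j : Fin m) :
    Real.log (v (b j j)) = rowLog v X j -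
      (if hj : 0 < (j : ℕ) then rowLog v X ⟨(j : ℕ) - 1, by omega⟩ else 0) := by
  have hne : ∀ i, v (b i i) ≠ 0 := fun i => (v.pos (diag_ne_zero hb (det_unit_of_factor hX h) i)).ne'
  obtain ⟨n, hn⟩ := j
  cases n with
  | zero =>
    have e1 := rmax_factor hv h h1 hb hκ hκ' ⟨0, hn⟩
    have e2 : rmax v X ⟨0, hn⟩ = v (b ⟨0, hn⟩ ⟨0, hn⟩) := by
      rw [e1, Fin.prod_univ_one]
      rfl
    unfold rowLog
    rw [e2]
    simp
  | succ n =>
    have hn' : n < m := by omega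
    have e1 := rmax_factor hv h h1 hb hκ hκ' ⟨n + 1, hn⟩
    have e0 := rmax_factor hv h h1 hb hκ hκ' ⟨n, hn'⟩
    have e2 : rmax v X ⟨n + 1, hn⟩ = rmax v X ⟨n, hn'⟩ * v (b ⟨n + 1, hn⟩ ⟨n + 1, hn⟩) := by
      rw [e1, e0]
      rw [Fin.prod_univ_castSucc]
      rfl
    have hpos : rmax v X ⟨n, hn'⟩ ≠ 0 := (rmax_pos hv X hX _).ne'
    have hd : (if hj : 0 < ((⟨n + 1, hn⟩ : Fin m) : ℕ) then
        rowLog v X ⟨((⟨n + 1, hn⟩ : Fin m) : ℕ) - 1, by omega⟩ else 0) = rowLog v X ⟨n, hn'⟩ := by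
      rw [dif_pos (Nat.succ_pos n)]
      rfl
    rw [hd]
    unfold rowLog
    rw [e2, Real.log_mul hpos (hne _)]
    ring

/-- entries of a product of matrices with entries of value at most `1`, `ρ`, `1` -/
lemma entry_mul_le {v : AbsoluteValue K ℝ} (hv : IsNonarchimedean v)
    (X Y : Matrix (Fin m) (Fin m) K) {α β : ℝ} (hα : 0 ≤ α) (hβ : 0 ≤ β)
    (hX : ∀ i j, v (X i j) ≤ α) (hY : ∀ i j, v (Y i j) ≤ β) (i j : Fin m) :
    v ((X * Y) i j) ≤ α * β := by
  rw [Matrix.mul_apply]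
  refine sum_le_of_na hv _ _ (mul_nonneg hα hβ) fun e _ => ?_
  rw [map_mul]
  exact mul_le_mul (hX _ _) (hY _ _) (v.nonneg _) hα

/-- one step of the induction -/
lemma light_step {v : AbsoluteValue K ℝ} (hv : IsNonarchimedean v)
    (B c : Matrix (Fin m) (Fin m) K) {τ E C : ℝ} (hτ : 1 ≤ τ) (hE : 1 ≤ E)
    (hC : C = τ * E * E) (hB : ∀ i k, i < k → B i k = 0) (hc : ∀ i k, i < k → c i k = 0)
    (hcτ : ∀ i k, v (c i k) ≤ τ) (hBu : ∀ i, v (B i i) ≤ E)
    (hBl : ∀ i, E⁻¹ ≤ v ((B * c) i i))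
    (hBe : ∀ i k, k ≤ i → v (B i k) ≤ v (B k k) * C ^ ((i : ℕ) - k)) :
    ∀ i k, k ≤ i → v ((B * c) i k) ≤ v ((B * c) k k) * C ^ ((i : ℕ) - k) := by
  intro i k hki
  have hτ0 : (0 : ℝ) < τ := lt_of_lt_of_le zero_lt_one hτ
  have hE0 : (0 : ℝ) < E := lt_of_lt_of_le zero_lt_one hE
  have hC1 : 1 ≤ C := by
    rw [hC]
    nlinarith [mul_nonneg (sub_nonneg.2 hτ) hE0.le]
  have hC0 : (0 : ℝ) < C := lt_of_lt_of_le zero_lt_one hC1
  rw [Matrix.mul_apply]
  refine sum_le_of_na hv _ _ (mul_nonneg (v.nonneg _) (pow_nonneg hC0.le _)) fun e _ => ?_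
  rw [map_mul]
  rcases lt_trichotomy e k with h | h | h
  · rw [hc e k h, map_zero, mul_zero]
    exact mul_nonneg (v.nonneg _) (pow_nonneg hC0.le _)
  · subst h
    rw [mul_diag hB hc, map_mul]
    calc v (B i e) * v (c e e) ≤ v (B e e) * C ^ ((i : ℕ) - e) * v (c e e) :=
          mul_le_mul_of_nonneg_right (hBe i e hki) (v.nonneg _)
      _ = v (B e e) * v (c e e) * C ^ ((i : ℕ) - e) := by ring
  · rcases lt_or_ge i e with h' | h'
    · rw [hB i e h', map_zero, zero_mul]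
      exact mul_nonneg (v.nonneg _) (pow_nonneg hC0.le _)
    · have hlt : (k : ℕ) < e := h
      have hle : (e : ℕ) ≤ i := h'
      have hexp : ((i : ℕ) - e) + 1 ≤ (i : ℕ) - k := by omega
      have a1 : v (B i e) * v (c e k) ≤ (E * C ^ ((i : ℕ) - e)) * τ := by
        refine mul_le_mul ((hBe i e h').trans ?_) (hcτ e k) (v.nonneg _) (by positivity)
        exact mul_le_mul_of_nonneg_right (hBu e) (pow_nonneg hC0.le _)
      have a2 : (E * C ^ ((i : ℕ) - e)) * τ = E⁻¹ * C ^ (((i : ℕ) - e) + 1) := by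
        rw [pow_succ, hC]
        field_simp
      have a3 : E⁻¹ * C ^ (((i : ℕ) - e) + 1) ≤ E⁻¹ * C ^ ((i : ℕ) - k) :=
        mul_le_mul_of_nonneg_left (pow_le_pow_right₀ hC1 hexp) (inv_pos.2 hE0).le
      have a4 : E⁻¹ * C ^ ((i : ℕ) - k) ≤ v ((B * c) k k) * C ^ ((i : ℕ) - k) :=
        mul_le_mul_of_nonneg_right (hBl k) (pow_nonneg hC0.le _)
      linarith

theorem rowLog_light {v : AbsoluteValue K ℝ} (hv : IsNonarchimedean v) (m : ℕ) (τ R : ℝ) :
    ∃ ρ : ℝ, ∀ {Γ : Type*} [Group Γ] (φ : Γ →* GL (Fin m) K) (T : Set Γ)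
      (_ : ∀ s ∈ T, ∀ a b, v ((φ s : Matrix (Fin m) (Fin m) K) a b) ≤ τ) (x y : Γ)
      (_ : Chain T (fun z => ∀ j, |rowLog v (φ z : Matrix (Fin m) (Fin m) K) j -
        rowLog v (φ x : Matrix (Fin m) (Fin m) K) j| ≤ R) x y),
      ∀ a b, v ((φ (x⁻¹ * y) : Matrix (Fin m) (Fin m) K) a b) ≤ ρ := by
  set R0 : ℝ := max R 0 with hR0
  set τ' : ℝ := max 1 τ with hτ'
  set E : ℝ := Real.exp (2 * R0) with hE
  set C : ℝ := τ' * E * E with hC
  have hR00 : 0 ≤ R0 := le_max_right _ _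
  have hE1 : 1 ≤ E := Real.one_le_exp (by positivity)
  have hE0 : 0 < E := lt_of_lt_of_le zero_lt_one hE1
  have hτ1 : 1 ≤ τ' := le_max_left _ _
  have hτ0 : 0 < τ' := lt_of_lt_of_le zero_lt_one hτ1
  have hC1 : 1 ≤ C := by
    rw [hC]
    nlinarith [mul_nonneg (sub_nonneg.2 hτ1) hE0.le]
  have hC0 : 0 < C := lt_of_lt_of_le zero_lt_one hC1
  refine ⟨E * C ^ m, ?_⟩
  intro Γ _ φ T hT x y hch
  have hdet : ∀ z, IsUnit (φ z : Matrix (Fin m) (Fin m) K).det := fun z =>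
    (Matrix.isUnit_iff_isUnit_det _).1 (φ z).isUnit
  choose b κ κ' hf h1 h2 hb hκ hκ' using fun z => exists_pivot hv _ (hdet z)
  have hbu : ∀ z, IsUnit (b z).det := fun z => det_unit_of_factor (hdet z) (hf z)
  have hne : ∀ z i, 0 < v (b z i i) := fun z i => v.pos (diag_ne_zero (hb z) (hbu z) i)
  -- the diagonal entries along the chain
  have hdiag : ∀ z, (∀ j, |rowLog v (φ z : Matrix (Fin m) (Fin m) K) j -
      rowLog v (φ x : Matrix (Fin m) (Fin m) K) j| ≤ R0) → ∀ i,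
      |Real.log (v (b z i i)) - Real.log (v (b x i i))| ≤ 2 * R0 := by
    intro z hz i
    rw [log_diag hv (hdet z) (hf z) (h1 z) (hb z) (hκ z) (hκ' z),
      log_diag hv (hdet x) (hf x) (h1 x) (hb x) (hκ x) (hκ' x)]
    have k1 := abs_le.1 (hz i)
    by_cases hj : 0 < (i : ℕ)
    · rw [dif_pos hj, dif_pos hj]
      have k2 := abs_le.1 (hz ⟨(i : ℕ) - 1, by omega⟩)
      rw [abs_le]
      constructor <;> linarith [k1.1, k1.2, k2.1, k2.2]
    · rw [dif_neg hj, dif_neg hj]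
      rw [abs_le]
      constructor <;> linarith [k1.1, k1.2]
  have hBd : ∀ z i, ((b x)⁻¹ * b z) i i = (b x i i)⁻¹ * b z i i := by
    intro z i
    rw [mul_diag (inv_lower (hb x) (hbu x)) (hb z)]
    congr 1
    have e := mul_diag (inv_lower (hb x) (hbu x)) (hb x) i
    rw [Matrix.nonsing_inv_mul _ (hbu x), Matrix.one_apply_eq] at e
    exact eq_inv_of_mul_eq_one_left e.symm
  have hBd' : ∀ z, (∀ j, |rowLog v (φ z : Matrix (Fin m) (Fin m) K) j -
      rowLog v (φ x : Matrix (Fin m) (Fin m) K) j| ≤ R0) → ∀ i,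
      E⁻¹ ≤ v (((b x)⁻¹ * b z) i i) ∧ v (((b x)⁻¹ * b z) i i) ≤ E := by
    intro z hz i
    have k := abs_le.1 (hdiag z hz i)
    have e : v (((b x)⁻¹ * b z) i i) =
        Real.exp (Real.log (v (b z i i)) - Real.log (v (b x i i))) := by
      rw [hBd, map_mul, map_inv₀, Real.exp_sub, Real.exp_log (hne z i), Real.exp_log (hne x i)]
      rw [div_eq_inv_mul]
    rw [e, hE, ← Real.exp_neg]
    exact ⟨Real.exp_le_exp.2 (by linarith [k.1]), Real.exp_le_exp.2 k.2⟩
  have key : (∀ i k, k ≤ i → v (((b x)⁻¹ * b y) i k) ≤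
      v (((b x)⁻¹ * b y) k k) * C ^ ((i : ℕ) - k)) ∧
      ∀ j, |rowLog v (φ y : Matrix (Fin m) (Fin m) K) j -
      rowLog v (φ x : Matrix (Fin m) (Fin m) K) j| ≤ R0 := by
    refine hch.rec' (R := fun z => (∀ i k, k ≤ i → v (((b x)⁻¹ * b z) i k) ≤
      v (((b x)⁻¹ * b z) k k) * C ^ ((i : ℕ) - k)) ∧
      ∀ j, |rowLog v (φ z : Matrix (Fin m) (Fin m) K) j -
      rowLog v (φ x : Matrix (Fin m) (Fin m) K) j| ≤ R0) ?_ ?_
    · refine ⟨?_, fun j => by simpa using hR00⟩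
      intro i k hki
      rw [Matrix.nonsing_inv_mul _ (hbu x)]
      rcases eq_or_lt_of_le hki with h | h
      · subst h
        simp
      · rw [Matrix.one_apply_ne h.ne', map_zero]
        exact mul_nonneg (v.nonneg _) (pow_nonneg hC0.le _)
    · intro z z' _ hz hs hP
      have hP' : ∀ j, |rowLog v (φ z' : Matrix (Fin m) (Fin m) K) j -
          rowLog v (φ x : Matrix (Fin m) (Fin m) K) j| ≤ R0 := fun j =>
        (hP j).trans (le_max_left _ _)
      refine ⟨?_, hP'⟩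
      have hstep : (b x)⁻¹ * b z' = ((b x)⁻¹ * b z) * ((b z)⁻¹ * b z') := by
        rw [Matrix.mul_assoc, ← Matrix.mul_assoc (b z), Matrix.mul_nonsing_inv _ (hbu z),
          Matrix.one_mul]
      have hcφ : (b z)⁻¹ * b z' =
          κ z * (φ (z⁻¹ * z') : Matrix (Fin m) (Fin m) K) * κ' z' := by
        have e1 : (φ z' : Matrix (Fin m) (Fin m) K) =
            (φ z : Matrix (Fin m) (Fin m) K) * (φ (z⁻¹ * z') : Matrix (Fin m) (Fin m) K) := by
          rw [← Units.val_mul, ← map_mul, mul_inv_cancel_left]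
        have e2 : b z' = (φ z' : Matrix (Fin m) (Fin m) K) * κ' z' := by
          rw [hf z', Matrix.mul_assoc, h1 z', Matrix.mul_one]
        rw [e2, e1]
        have e3 : (b z)⁻¹ * (φ z : Matrix (Fin m) (Fin m) K) = κ z := by
          conv_lhs => rw [hf z]
          rw [← Matrix.mul_assoc, Matrix.nonsing_inv_mul _ (hbu z), Matrix.one_mul]
        rw [← Matrix.mul_assoc, ← Matrix.mul_assoc, e3]
      have hcτ : ∀ i k, v (((b z)⁻¹ * b z') i k) ≤ τ' := by
        intro i k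
        rw [hcφ]
        have f1 := entry_mul_le hv (κ z) (φ (z⁻¹ * z') : Matrix (Fin m) (Fin m) K)
          zero_le_one hτ0.le (hκ z) fun a b => (hT _ hs a b).trans (le_max_right _ _)
        have f2 := entry_mul_le hv (κ z * (φ (z⁻¹ * z') : Matrix (Fin m) (Fin m) K)) (κ' z')
          (mul_nonneg zero_le_one hτ0.le) zero_le_one f1 (hκ' z') i k
        simpa using f2
      rw [hstep]
      refine light_step hv _ _ hτ1 hE1 hC (mul_lower (inv_lower (hb x) (hbu x)) (hb z))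
        (mul_lower (inv_lower (hb z) (hbu z)) (hb z')) hcτ (fun i => (hBd' z hz.2 i).2) ?_ hz.1
      intro i
      rw [← hstep]
      exact (hBd' z' hP' i).1
  -- the end of the chain
  have hBle : ∀ i k, v (((b x)⁻¹ * b y) i k) ≤ E * C ^ m := by
    intro i k
    rcases lt_or_ge i k with h | h
    · rw [mul_lower (inv_lower (hb x) (hbu x)) (hb y) i k h, map_zero]
      positivity
    · refine (key.1 i k h).trans ?_
      refine mul_le_mul (hBd' y key.2 k).2 (pow_le_pow_right₀ hC1 (by omega))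
        (pow_nonneg hC0.le _) hE0.le
  have hend : (φ (x⁻¹ * y) : Matrix (Fin m) (Fin m) K) =
      κ' x * ((b x)⁻¹ * b y) * κ y := by
    have e1 : (φ x : Matrix (Fin m) (Fin m) K) * (φ (x⁻¹ * y) : Matrix (Fin m) (Fin m) K) =
        (φ y : Matrix (Fin m) (Fin m) K) := by
      rw [← Units.val_mul, ← map_mul, mul_inv_cancel_left]
    have e2 : κ' x * (b x)⁻¹ * (φ x : Matrix (Fin m) (Fin m) K) = 1 := by
      conv_lhs => rw [hf x]
      rw [Matrix.mul_assoc, ← Matrix.mul_assoc (b x)⁻¹, Matrix.nonsing_inv_mul _ (hbu x),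
        Matrix.one_mul, h2 x]
    calc (φ (x⁻¹ * y) : Matrix (Fin m) (Fin m) K) =
        (κ' x * (b x)⁻¹ * (φ x : Matrix (Fin m) (Fin m) K)) *
          (φ (x⁻¹ * y) : Matrix (Fin m) (Fin m) K) := by rw [e2, Matrix.one_mul]
      _ = κ' x * (b x)⁻¹ * (φ y : Matrix (Fin m) (Fin m) K) := by
          rw [Matrix.mul_assoc, e1]
      _ = κ' x * ((b x)⁻¹ * b y) * κ y := by
          conv_lhs => rw [hf y]
          simp only [Matrix.mul_assoc]
  intro i k
  rw [hend]
  have hEC : 0 ≤ E * C ^ m := by positivity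
  have f1 := entry_mul_le hv (κ' x) ((b x)⁻¹ * b y) zero_le_one hEC (hκ' x) hBle
  have f2 := entry_mul_le hv (κ' x * ((b x)⁻¹ * b y)) (κ y)
    (mul_nonneg zero_le_one hEC) zero_le_one f1 (hκ y) i k
  simpa using f2

end Pool.Agent.Helper58.GI
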