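import Mathlib

/-!
GLINF GL3. A linear map to `ℝ ^ d` which controls all vectors satisfying small relations.

Proof. (1) Lemma: for a finite set `S` of subspaces of a finite-dimensional real vector space `W`, all
of dimension at most `d`, there is a linear map `π : W → ℝ ^ d` injective on all of them. Induction on
`d`: `d = 0` trivial. Step: for `V ∈ S`, `V ≠ ⊥`, the functionals which vanish on `V` are a proper
subspace of the dual; a vector space over an infinite field is not a finite union of proper subspaces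
(`Subspace.biUnion_ne_univ_of_top_notMem`), so some functional `ℓ` is nonzero on every `V ≠ ⊥` of `S`;
then `V ⊓ ker ℓ` has dimension at most `d - 1`; apply the induction hypothesis and combine
(`Fin.cons`). (2) A choice function `a` assigns to every injective `J : Fin (d + 1) → Fin m` a nonzero
`n : Fin (d + 1) → ℤ` with entries in `[-E, E]`; there are finitely many. `V a` = the `w` with
`∑ i, n i * w (J i) = 0` for all `J`, `n = a J`. `dim V a ≤ d`: the coordinate functionals restricted to
`V a` separate points, so they span the dual of `V a`; if the dimension were larger than `d` there would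
be `d + 1` coordinates linearly independent on `V a`, against the relation for this `J`.
(3) `π` from (1); on every `V a` an antilipschitz constant (`LinearMap.exists_antilipschitzWith`), `C` =
the largest one, for the sup norm.
-/

set_option autoImplicit false

namespace Pool.Agent.Helper58.GI

open Module

/-- a functional which does not vanish identically on any of finitely many nonzero subspaces -/
private theorem exists_functional {V : Type*} [AddCommGroup V] [Module ℝ V] [FiniteDimensional ℝ V]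
    {ι : Type*} [Finite ι] (U : ι → Submodule ℝ V) :
    ∃ φ : V →ₗ[ℝ] ℝ, ∀ i, U i ≠ ⊥ → ∃ u ∈ U i, φ u ≠ 0 := by
  classical
  cases nonempty_fintype ι
  let s : Finset (Submodule ℝ (Dual ℝ V)) :=
    (Finset.univ.filter (fun i => U i ≠ ⊥)).image (fun i => (U i).dualAnnihilator)
  have hs : (⊤ : Submodule ℝ (Dual ℝ V)) ∉ s := by
    intro h
    rw [Finset.mem_image] at h
    obtain ⟨i, hi, h⟩ := h
    rw [Finset.mem_filter] at hi
    apply hi.2
    have := congrArg Submodule.dualCoannihilator h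
    rwa [Subspace.dualAnnihilator_dualCoannihilator_eq, Submodule.dualCoannihilator_top] at this
  have hne := Subspace.biUnion_ne_univ_of_top_notMem hs
  obtain ⟨φ, hφ⟩ := (Set.ne_univ_iff_exists_notMem _).1 hne
  refine ⟨φ, fun i hi => ?_⟩
  by_contra hcon
  push Not at hcon
  apply hφ
  rw [Set.mem_iUnion₂]
  refine ⟨(U i).dualAnnihilator, Finset.mem_image.2 ⟨i, by simp [hi], rfl⟩, ?_⟩
  rw [SetLike.mem_coe, Submodule.mem_dualAnnihilator]
  exact hcon

/-- a linear map to `ℝ ^ d` which is injective on finitely many subspaces of dimension at most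
`d` -/
private theorem exists_generic {V : Type*} [AddCommGroup V] [Module ℝ V] [FiniteDimensional ℝ V]
    {ι : Type*} [Finite ι] (d : ℕ) (U : ι → Submodule ℝ V) (hU : ∀ i, finrank ℝ (U i) ≤ d) :
    ∃ π : V →ₗ[ℝ] (Fin d → ℝ), ∀ i, ∀ u ∈ U i, π u = 0 → u = 0 := by
  induction d generalizing U with
  | zero =>
    refine ⟨0, fun i u hu _ => ?_⟩
    have h0 : finrank ℝ (U i) = 0 := by have := hU i; omega
    rw [Submodule.finrank_eq_zero] at h0
    rw [h0, Submodule.mem_bot] at hu
    exact hu
  | succ d ih =>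
    obtain ⟨φ, hφ⟩ := exists_functional U
    have hU' : ∀ i, finrank ℝ (↥(U i ⊓ LinearMap.ker φ)) ≤ d := by
      intro i
      by_cases hb : U i = ⊥
      · rw [hb, bot_inf_eq, finrank_bot]; exact Nat.zero_le _
      · obtain ⟨u, hu, hne⟩ := hφ i hb
        have hlt : U i ⊓ LinearMap.ker φ < U i := by
          refine lt_of_le_of_ne inf_le_left fun h => hne ?_
          have : u ∈ U i ⊓ LinearMap.ker φ := by rw [h]; exact hu
          exact this.2
        have := Submodule.finrank_lt_finrank_of_lt hlt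
        have := hU i
        omega
    obtain ⟨π, hπ⟩ := ih (fun i => U i ⊓ LinearMap.ker φ) hU'
    refine ⟨LinearMap.pi (Fin.cons φ (fun j => (LinearMap.proj j).comp π)), fun i u hu h0 => ?_⟩
    have h1 : φ u = 0 := by
      have := congrFun h0 0
      simpa using this
    refine hπ i u ⟨hu, h1⟩ ?_
    funext j
    have := congrFun h0 j.succ
    simpa using this

/-- a subspace of `ℝ ^ m` on which any `d + 1` coordinates are dependent has dimension at most
`d` -/
private theorem finrank_le_of_dependent {m d : ℕ} (U : Submodule ℝ (Fin m → ℝ))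
    (h : ∀ J : Finset (Fin m), J.card = d + 1 → ∃ n : Fin m → ℝ, (∀ i ∉ J, n i = 0) ∧ n ≠ 0 ∧
      ∀ w ∈ U, ∑ i, n i * w i = 0) : finrank ℝ U ≤ d := by
  classical
  by_contra hcon
  push Not at hcon
  let f : Fin m → Dual ℝ U := fun i => (LinearMap.proj i).comp U.subtype
  have hspan : Submodule.span ℝ (Set.range f) = ⊤ := by
    rw [← Subspace.dualCoannihilator_dualAnnihilator_eq
      (W := Submodule.span ℝ (Set.range f))] 
    rw [← Submodule.dualAnnihilator_bot]
    congr 1
    rw [eq_bot_iff]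
    intro u hu
    rw [Submodule.mem_dualCoannihilator] at hu
    rw [Submodule.mem_bot]
    ext i
    exact hu (f i) (Submodule.subset_span ⟨i, rfl⟩)
  obtain ⟨b, hbsub, hbspan, hbli⟩ := exists_linearIndependent ℝ (Set.range f)
  rw [hspan] at hbspan
  have hbfin : b.Finite := (Set.finite_range f).subset hbsub
  have : Fintype b := hbfin.fintype
  have hcard : finrank ℝ (Dual ℝ U) = Fintype.card b := by
    have hB := Basis.mk hbli (by rw [Subtype.range_coe]; exact hbspan.ge)
    exact finrank_eq_card_basis hB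
  rw [Subspace.dual_finrank_eq] at hcard
  -- choose indices
  have hch : ∀ x : b, ∃ i, f i = x := fun x => hbsub x.2
  choose g hg using hch
  have hginj : Function.Injective g := by
    intro x y hxy
    apply Subtype.ext
    rw [← hg x, ← hg y, hxy]
  have hle : d + 1 ≤ (Finset.univ.image g).card := by
    rw [Finset.card_image_of_injective _ hginj, Finset.card_univ, ← hcard]
    exact hcon
  obtain ⟨J, hJ, hJc⟩ := Finset.exists_subset_card_eq hle
  obtain ⟨n, hn0, hnne, hnU⟩ := h J hJc
  apply hnne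
  -- the relation
  have hrel : ∑ x : b, n (g x) • (x : Dual ℝ U) = 0 := by
    ext u
    have h1 := hnU u u.2
    simp only [LinearMap.coe_sum, Finset.sum_apply, LinearMap.smul_apply, LinearMap.zero_apply,
      smul_eq_mul]
    rw [← h1]
    have h2 : ∑ i, n i * (u : Fin m → ℝ) i
        = ∑ i ∈ Finset.univ.image g, n i * (u : Fin m → ℝ) i := by
      symm
      apply Finset.sum_subset (Finset.subset_univ _)
      intro i _ hi
      rw [hn0 i (fun hiJ => hi (hJ hiJ)), zero_mul]
    rw [h2, Finset.sum_image (fun x _ y _ h => hginj h)]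
    refine Finset.sum_congr rfl fun x _ => ?_
    rw [← hg x]
    rfl
  have hz := Fintype.linearIndependent_iff.1 hbli (fun x => n (g x)) hrel
  funext i
  by_cases hi : i ∈ J
  · obtain ⟨x, _, rfl⟩ := Finset.mem_image.1 (hJ hi)
    exact hz x
  · exact hn0 i hi

private theorem exists_proj_aux (m d E : ℕ) : ∃ (π : (Fin m → ℝ) →ₗ[ℝ] (Fin d → ℝ)) (C : ℝ), 0 ≤ C ∧
    ∀ w : Fin m → ℝ, (∀ J : Finset (Fin m), J.card = d + 1 → ∃ n : Fin m → ℤ,
      (∀ i, |n i| ≤ (E : ℤ)) ∧ (∀ i ∉ J, n i = 0) ∧ n ≠ 0 ∧ ∑ i, (n i : ℝ) * w i = 0) →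
      ∀ B : ℝ, (∀ j, |π w j| ≤ B) → 0 ≤ B → ∀ i, |w i| ≤ C * B := by
  classical
  let I : Type := {J : Finset (Fin m) // J.card = d + 1} →
    {n : Fin m → (Finset.Icc (-(E : ℤ)) E) // True}
  let val : I → {J : Finset (Fin m) // J.card = d + 1} → Fin m → ℤ :=
    fun ν J i => ((ν J).1 i : ℤ)
  let good : I → Prop := fun ν => ∀ J, (∀ i ∉ J.1, val ν J i = 0) ∧ val ν J ≠ 0
  let L : I → {J : Finset (Fin m) // J.card = d + 1} → ((Fin m → ℝ) →ₗ[ℝ] ℝ) := fun ν J =>
    ∑ i, (val ν J i : ℝ) • LinearMap.proj i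
  let U : {ν : I // good ν} → Submodule ℝ (Fin m → ℝ) := fun ν => ⨅ J, LinearMap.ker (L ν.1 J)
  have hLapp : ∀ ν J w, L ν J w = ∑ i, (val ν J i : ℝ) * w i := by
    intro ν J w
    simp [L, LinearMap.sum_apply]
  have hU : ∀ ν, finrank ℝ (U ν) ≤ d := by
    intro ν
    refine finrank_le_of_dependent _ fun J hJ => ?_
    refine ⟨fun i => (val ν.1 ⟨J, hJ⟩ i : ℝ), ?_, ?_, ?_⟩
    · intro i hi
      have := (ν.2 ⟨J, hJ⟩).1 i hi
      simp [this]
    · intro h0
      apply (ν.2 ⟨J, hJ⟩).2
      funext i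
      have := congrFun h0 i
      simpa using this
    · intro w hw
      rw [← hLapp]
      have := (Submodule.mem_iInf _).1 hw ⟨J, hJ⟩
      simpa using this
  have hfinI : Finite {ν : I // good ν} := by
    have : Finite I := inferInstance
    infer_instance
  obtain ⟨π, hπ⟩ := exists_generic d U hU
  -- antilipschitz constants
  have hanti : ∀ ν, ∃ K : NNReal, ∀ w ∈ U ν, ‖w‖ ≤ K * ‖π w‖ := by
    intro ν
    have hinj : LinearMap.ker (π.comp (U ν).subtype) = ⊥ := by
      rw [LinearMap.ker_eq_bot']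
      intro u hu
      exact Subtype.ext (hπ ν u u.2 hu)
    obtain ⟨K, _, hK⟩ := LinearMap.exists_antilipschitzWith (π.comp (U ν).subtype) hinj
    refine ⟨K, fun w hw => ?_⟩
    have := hK.le_mul_dist ⟨w, hw⟩ 0
    simpa [dist_eq_norm] using this
  choose K hK using hanti
  cases nonempty_fintype {ν : I // good ν}
  refine ⟨π, ((∑ ν, K ν : NNReal) : ℝ), NNReal.coe_nonneg _, ?_⟩
  intro w hw B hB hB0 i
  choose! n hn1 hn2 hn3 hn4 using hw
  let ν : I := fun J => ⟨fun i => ⟨n J.1 i, by
    rw [Finset.mem_Icc]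
    exact abs_le.1 (hn1 J.1 J.2 i)⟩, trivial⟩
  have hgood : good ν := fun J => ⟨fun i hi => hn2 J.1 J.2 i hi, hn3 J.1 J.2⟩
  have hwU : w ∈ U ⟨ν, hgood⟩ := by
    rw [Submodule.mem_iInf]
    intro J
    rw [LinearMap.mem_ker, hLapp]
    exact hn4 J.1 J.2
  have h1 := hK ⟨ν, hgood⟩ w hwU
  have h2 : ‖π w‖ ≤ B := (pi_norm_le_iff_of_nonneg hB0).2 fun j => by
    rw [Real.norm_eq_abs]; exact hB j
  have h3 : |w i| ≤ ‖w‖ := by rw [← Real.norm_eq_abs]; exact norm_le_pi_norm w i
  have h4 : (K ⟨ν, hgood⟩ : ℝ) ≤ ((∑ ν, K ν : NNReal) : ℝ) := by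
    exact_mod_cast Finset.single_le_sum (f := K) (fun _ _ => bot_le) (Finset.mem_univ _)
  calc |w i| ≤ ‖w‖ := h3
    _ ≤ K ⟨ν, hgood⟩ * ‖π w‖ := h1
    _ ≤ ((∑ ν, K ν : NNReal) : ℝ) * B := by
        apply mul_le_mul h4 h2 (norm_nonneg _) (NNReal.coe_nonneg _)

/-- `w` satisfies a nontrivial relation with integer coefficients in `[-E, E]` in the coordinates
`J` -/
def SmallRel (E : ℕ) {m k : ℕ} (J : Fin k → Fin m) (w : Fin m → ℝ) : Prop :=
  ∃ n : Fin k → ℤ, n ≠ 0 ∧ (∀ i, |n i| ≤ E) ∧ ∑ i, (n i : ℝ) * w (J i) = 0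

theorem exists_proj (m d E : ℕ) : ∃ (π : (Fin m → ℝ) →ₗ[ℝ] (Fin d → ℝ)) (C : ℝ), 0 ≤ C ∧
    ∀ w : Fin m → ℝ, (∀ J : Fin (d + 1) → Fin m, Function.Injective J → SmallRel E J w) →
      ∀ η : ℝ, 0 ≤ η → (∀ l, |π w l| ≤ η) → ∀ j, |w j| ≤ C * η := by
  classical
  obtain ⟨π, C, hC, h⟩ := exists_proj_aux m d E
  refine ⟨π, C, hC, fun w hw η hη hπ j => h w (fun J hJ => ?_) η hπ hη j⟩
  obtain ⟨n, hn0, hnE, hsum⟩ := hw (J.orderEmbOfFin hJ) (J.orderEmbOfFin hJ).injective
  have hinj := (J.orderEmbOfFin hJ).injective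
  have hext : ∀ i, Function.extend (J.orderEmbOfFin hJ) n 0 (J.orderEmbOfFin hJ i) = n i :=
    fun i => hinj.extend_apply n 0 i
  have hout : ∀ i ∉ J, Function.extend (J.orderEmbOfFin hJ) n 0 i = 0 := by
    intro i hi
    rw [Function.extend_apply']
    · rfl
    · rintro ⟨a, rfl⟩
      exact hi (J.orderEmbOfFin_mem hJ a)
  refine ⟨Function.extend (J.orderEmbOfFin hJ) n 0, fun i => ?_, hout, fun h0 => hn0 ?_, ?_⟩
  · by_cases hi : i ∈ J
    · have : i ∈ Set.range (J.orderEmbOfFin hJ) := by
        rw [Finset.range_orderEmbOfFin]; exact hi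
      obtain ⟨a, rfl⟩ := this
      rw [hext]
      exact hnE a
    · rw [hout i hi]; simp
  · funext i
    rw [← hext i, h0]
    rfl
  · have h2 : ∑ i, ((Function.extend (J.orderEmbOfFin hJ) n 0 i : ℤ) : ℝ) * w i
        = ∑ i ∈ Finset.univ.image (J.orderEmbOfFin hJ),
          ((Function.extend (J.orderEmbOfFin hJ) n 0 i : ℤ) : ℝ) * w i := by
      symm
      apply Finset.sum_subset (Finset.subset_univ _)
      intro i _ hi
      have : i ∉ J := by
        intro hiJ
        apply hi
        have : i ∈ Set.range (J.orderEmbOfFin hJ) := by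
          rw [Finset.range_orderEmbOfFin]; exact hiJ
        obtain ⟨a, rfl⟩ := this
        exact Finset.mem_image_of_mem _ (Finset.mem_univ a)
      rw [hout i this]; simp
    rw [h2, Finset.sum_image (fun x _ y _ hxy => hinj hxy), ← hsum]
    refine Finset.sum_congr rfl fun i _ => ?_
    rw [hext]

end Pool.Agent.Helper58.GI
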