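import Mathlib

/-!
GLINF GL2. If finitely many terms add up to zero then the two largest ones have the same
non-archimedean absolute value.

Proof. First theorem: choose `i` with `v (t i)` maximal (`Finset.exists_max_image`), it is nonzero.
`t i = - ∑ j ≠ i, t j`, so `v (t i) ≤ v (t j)` for some `j ≠ i` (ultrametric inequality for sums:
by induction, or `sum_le_of_na` of `Minor.lean`), hence equality by maximality. Second theorem: apply it
to `t α = c α * ∏ i, z i ^ α i`, which is nonzero exactly when `c α ≠ 0`, and take logarithms.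
-/

set_option autoImplicit false

namespace Pool.Agent.Helper58.GI

theorem trop_sum_lt {K : Type*} [Field K] {v : AbsoluteValue K ℝ} (hv : IsNonarchimedean v)
    {ι : Type*} (s : Finset ι) (t : ι → K) (M : ℝ) (hM : 0 < M)
    (h : ∀ j ∈ s, v (t j) < M) : v (∑ j ∈ s, t j) < M := by
  classical
  induction s using Finset.induction_on with
  | empty => simpa using hM
  | insert a s ha ih =>
    rw [Finset.sum_insert ha]
    refine (hv _ _).trans_lt (max_lt (h a (Finset.mem_insert_self a s)) (ih ?_))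
    intro j hj
    exact h j (Finset.mem_insert_of_mem hj)

theorem exists_two_largest {K : Type*} [Field K] {v : AbsoluteValue K ℝ} (hv : IsNonarchimedean v)
    {ι : Type*} [Fintype ι] [DecidableEq ι] (t : ι → K) (h0 : ∃ i, t i ≠ 0) (hsum : ∑ i, t i = 0) :
    ∃ i j, i ≠ j ∧ t i ≠ 0 ∧ v (t i) = v (t j) := by
  obtain ⟨i0, hi0⟩ := h0
  obtain ⟨i, -, hi⟩ := Finset.exists_max_image Finset.univ (fun i => v (t i)) ⟨i0, Finset.mem_univ i0⟩
  have hti : 0 < v (t i) := lt_of_lt_of_le (v.pos hi0) (hi i0 (Finset.mem_univ i0))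
  have hne : t i ≠ 0 := fun h => by rw [h, map_zero] at hti; exact lt_irrefl _ hti
  by_contra hcon
  have hlt : ∀ j ∈ Finset.univ.erase i, v (t j) < v (t i) := by
    intro j hj
    rcases lt_or_eq_of_le (hi j (Finset.mem_univ j)) with h | h
    · exact h
    · exact absurd ⟨i, j, (Finset.ne_of_mem_erase hj).symm, hne, h.symm⟩ hcon
  have h1 := trop_sum_lt hv (Finset.univ.erase i) t (v (t i)) hti hlt
  have h2 : ∑ j ∈ Finset.univ.erase i, t j = - t i := by
    have := Finset.add_sum_erase Finset.univ t (Finset.mem_univ i)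
    rw [hsum] at this
    exact (neg_eq_of_add_eq_zero_right this).symm
  rw [h2, v.map_neg] at h1
  exact lt_irrefl _ h1

theorem tropical {K : Type*} [Field K] {v : AbsoluteValue K ℝ} (hv : IsNonarchimedean v)
    {d E : ℕ} (c : (Fin (d + 1) → Fin (E + 1)) → K) (hc : c ≠ 0) (z : Fin (d + 1) → K)
    (hz : ∀ i, z i ≠ 0) (h : ∑ α, c α * ∏ i, z i ^ (α i : ℕ) = 0) :
    ∃ α β : Fin (d + 1) → Fin (E + 1), α ≠ β ∧
      ∑ i, (((α i : ℕ) : ℝ) - ((β i : ℕ) : ℝ)) * Real.log (v (z i)) =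
        Real.log (v (c β)) - Real.log (v (c α)) := by
  classical
  have hprod : ∀ α : Fin (d + 1) → Fin (E + 1), ∏ i, z i ^ (α i : ℕ) ≠ 0 := fun α =>
    Finset.prod_ne_zero_iff.2 fun i _ => pow_ne_zero _ (hz i)
  obtain ⟨α0, hα0⟩ := Function.ne_iff.1 hc
  obtain ⟨α, β, hne, hα, he⟩ := exists_two_largest hv
    (fun α : Fin (d + 1) → Fin (E + 1) => c α * ∏ i, z i ^ (α i : ℕ))
    ⟨α0, mul_ne_zero hα0 (hprod α0)⟩ h
  refine ⟨α, β, hne, ?_⟩
  have hcα : c α ≠ 0 := left_ne_zero_of_mul hα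
  have hcβ : c β ≠ 0 := by
    intro h0
    have h1 : v (c α * ∏ i, z i ^ (α i : ℕ)) = 0 := by
      rw [show v (c α * ∏ i, z i ^ (α i : ℕ)) = v (c β * ∏ i, z i ^ (β i : ℕ)) from he, h0,
        zero_mul, map_zero]
    exact hα (v.eq_zero.1 h1)
  have hlog : ∀ γ : Fin (d + 1) → Fin (E + 1), c γ ≠ 0 →
      Real.log (v (c γ * ∏ i, z i ^ (γ i : ℕ))) =
        Real.log (v (c γ)) + ∑ i, ((γ i : ℕ) : ℝ) * Real.log (v (z i)) := by
    intro γ hγ
    rw [map_mul, map_prod, Real.log_mul (v.ne_zero hγ)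
      (Finset.prod_ne_zero_iff.2 fun i _ => v.ne_zero (pow_ne_zero _ (hz i))),
      Real.log_prod fun i _ => v.ne_zero (pow_ne_zero _ (hz i))]
    congr 1
    refine Finset.sum_congr rfl fun i _ => ?_
    rw [map_pow, Real.log_pow]
  have h1 := hlog α hcα
  have h2 := hlog β hcβ
  have he' : v (c α * ∏ i, z i ^ (α i : ℕ)) = v (c β * ∏ i, z i ^ (β i : ℕ)) := he
  rw [he'] at h1
  rw [h1] at h2
  simp only [sub_mul, Finset.sum_sub_distrib]
  linarith

end Pool.Agent.Helper58.GI
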