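import Pool.Agent.Helper58.GI.Dep
import Pool.Agent.Helper58.GI.Trop
import Pool.Agent.Helper58.GI.Proj
import Pool.Agent.Helper58.GI.ChainRange
import Pool.Agent.Helper58.GI.Light

/-!
GLINF GL8. The local theorem: a group with a homomorphism to `GL_m(K)` and a subgroup on which the
matrices are polynomial functions of `d` parameters: `d` functions suffice.
-/

set_option autoImplicit false

namespace Pool.Agent.Helper58.GI

open Pool.Agent.Helper65.TH

universe u

section poly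

variable {K : Type u} [Field K] {m d : ℕ}

/-- the matrix of polynomials of a coset -/
noncomputable def polyMat (X : Matrix (Fin m) (Fin m) K)
    (P : Fin m → Fin m → MvPolynomial (Fin d) K) :
    Matrix (Fin m) (Fin m) (MvPolynomial (Fin d) K) :=
  Matrix.of fun a b => ∑ c, MvPolynomial.C (X a c) * P c b

/-- the polynomial of a minor -/
noncomputable def minorPoly (X : Matrix (Fin m) (Fin m) K)
    (P : Fin m → Fin m → MvPolynomial (Fin d) K) (j : Fin m) (f : Fin ((j : ℕ) + 1) → Fin m) :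
    MvPolynomial (Fin d) K :=
  ((polyMat X P).submatrix (Fin.castLE (Nat.succ_le_of_lt j.2)) f).det

lemma eval_minorPoly (X H : Matrix (Fin m) (Fin m) K)
    (P : Fin m → Fin m → MvPolynomial (Fin d) K) (y : Fin d → K)
    (hH : ∀ a b, H a b = MvPolynomial.eval y (P a b)) (j : Fin m)
    (f : Fin ((j : ℕ) + 1) → Fin m) :
    MvPolynomial.eval y (minorPoly X P j f) = minor (X * H) j f := by
  unfold minorPoly minor
  rw [RingHom.map_det]
  congr 1
  ext a b
  simp only [RingHom.mapMatrix_apply, Matrix.map_apply, Matrix.submatrix_apply, polyMat,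
    Matrix.of_apply, map_sum, map_mul, MvPolynomial.eval_C, Matrix.mul_apply, hH]

lemma degree_minorPoly (X : Matrix (Fin m) (Fin m) K)
    (P : Fin m → Fin m → MvPolynomial (Fin d) K) {D : ℕ} (hD : ∀ a b, (P a b).totalDegree ≤ D)
    (j : Fin m) (f : Fin ((j : ℕ) + 1) → Fin m) : (minorPoly X P j f).totalDegree ≤ m * D := by
  have h1 : ∀ a b, (polyMat X P a b).totalDegree ≤ D := by
    intro a b
    have h0 : polyMat X P a b = ∑ c, MvPolynomial.C (X a c) * P c b := rfl
    rw [h0]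
    refine MvPolynomial.totalDegree_finsetSum_le fun c _ => ?_
    refine (MvPolynomial.totalDegree_mul _ _).trans ?_
    rw [MvPolynomial.totalDegree_C, zero_add]
    exact hD c b
  unfold minorPoly
  rw [Matrix.det_apply]
  refine MvPolynomial.totalDegree_finsetSum_le fun σ _ => ?_
  have h2 : (∏ i, ((polyMat X P).submatrix (Fin.castLE (Nat.succ_le_of_lt j.2)) f)
      (σ i) i).totalDegree ≤ m * D := by
    refine (MvPolynomial.totalDegree_finsetProd _ _).trans ?_
    refine (Finset.sum_le_sum fun i _ => h1 _ _).trans ?_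
    rw [Finset.sum_const, Finset.card_univ, Fintype.card_fin, smul_eq_mul]
    exact Nat.mul_le_mul_right _ (Nat.succ_le_of_lt j.2)
  rcases Int.units_eq_one_or (Equiv.Perm.sign σ) with h | h
  · rw [h, one_smul]
    exact h2
  · rw [h, Units.neg_smul, one_smul, MvPolynomial.totalDegree_neg]
    exact h2

end poly

/-- the classes of the points of a coset: the columns of the largest minors and the pairs of
exponents -/
abbrev Cls (m d E : ℕ) : Type :=
  (∀ j : Fin m, Fin ((j : ℕ) + 1) → Fin m) ×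
    ({J : Fin (d + 1) → Fin m // Function.Injective J} →
      (Fin (d + 1) → Fin (E + 1)) × (Fin (d + 1) → Fin (E + 1)))

lemma linear_bound {m d : ℕ} (π : (Fin m → ℝ) →ₗ[ℝ] (Fin d → ℝ)) : ∃ c : ℝ, 0 ≤ c ∧
    ∀ (w : Fin m → ℝ) (η : ℝ), 0 ≤ η → (∀ j, |w j| ≤ η) → ∀ l, |π w l| ≤ c * η := by
  refine ⟨∑ l, ∑ j, |π (Pi.single j 1) l|, Finset.sum_nonneg fun l _ => Finset.sum_nonneg
    fun j _ => abs_nonneg _, fun w η hη hw l => ?_⟩
  have h1 : π w l = ∑ j, w j * π (Pi.single j 1) l := by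
    have h2 : w = ∑ j, w j • (Pi.single j (1 : ℝ) : Fin m → ℝ) := by
      ext a
      simp [Finset.sum_apply, Pi.single_apply]
    conv_lhs => rw [h2]
    rw [map_sum, Finset.sum_apply]
    refine Finset.sum_congr rfl fun j _ => ?_
    rw [map_smul, Pi.smul_apply, smul_eq_mul]
  rw [h1]
  calc |∑ j, w j * π (Pi.single j 1) l| ≤ ∑ j, |w j * π (Pi.single j 1) l| :=
        Finset.abs_sum_le_sum_abs _ _
    _ ≤ ∑ j, |π (Pi.single j 1) l| * η := by
        refine Finset.sum_le_sum fun j _ => ?_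
        rw [abs_mul, mul_comm]
        exact mul_le_mul_of_nonneg_left (hw j) (abs_nonneg _)
    _ = (∑ j, |π (Pi.single j 1) l|) * η := by rw [Finset.sum_mul]
    _ ≤ (∑ l, ∑ j, |π (Pi.single j 1) l|) * η := by
        refine mul_le_mul_of_nonneg_right ?_ hη
        exact Finset.single_le_sum (f := fun l => ∑ j, |π (Pi.single j 1) l|)
          (fun l _ => Finset.sum_nonneg fun j _ => abs_nonneg _) (Finset.mem_univ l)

theorem local_light {K : Type u} [Field K] {v : AbsoluteValue K ℝ} (hv : IsNonarchimedean v)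
    {Γ : Type*} [Group Γ] {m d : ℕ} (φ : Γ →* GL (Fin m) K) (L : Subgroup Γ)
    (y : Γ → Fin d → K) (P : Fin m → Fin m → MvPolynomial (Fin d) K)
    (hP : ∀ h ∈ L, ∀ a b, (φ h : Matrix (Fin m) (Fin m) K) a b = MvPolynomial.eval (y h) (P a b))
    (S : Finset Γ) (ε : ℝ) (hε : 0 < ε) :
    ∃ (g : Γ → Fin d → ℝ) (ρ : ℝ), (∀ x, ∀ s ∈ S, Near (g (x * s)) (g x) ε) ∧
      ∀ x z, Chain {s | s ∈ S ∧ s ∈ L} (fun b => Near (g b) (g x) 1) x z →
        ∀ a b, v ((φ (x⁻¹ * z) : Matrix (Fin m) (Fin m) K) a b) ≤ ρ := by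
  classical
  -- the size of the generators
  obtain ⟨τ, hτ1, hτ⟩ : ∃ τ : ℝ, 1 ≤ τ ∧ ∀ s ∈ S, ∀ a b,
      v ((φ s : Matrix (Fin m) (Fin m) K) a b) ≤ τ ∧
      v ((φ s⁻¹ : Matrix (Fin m) (Fin m) K) a b) ≤ τ := by
    refine ⟨1 + ∑ s ∈ S, ∑ a, ∑ b, (v ((φ s : Matrix (Fin m) (Fin m) K) a b) +
      v ((φ s⁻¹ : Matrix (Fin m) (Fin m) K) a b)), ?_, ?_⟩
    · have : 0 ≤ ∑ s ∈ S, ∑ a, ∑ b, (v ((φ s : Matrix (Fin m) (Fin m) K) a b) +
        v ((φ s⁻¹ : Matrix (Fin m) (Fin m) K) a b)) :=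
        Finset.sum_nonneg fun s _ => Finset.sum_nonneg fun a _ => Finset.sum_nonneg fun b _ =>
          add_nonneg (v.nonneg _) (v.nonneg _)
      linarith
    · intro s hs a b
      have h1 : v ((φ s : Matrix (Fin m) (Fin m) K) a b) +
          v ((φ s⁻¹ : Matrix (Fin m) (Fin m) K) a b) ≤
          ∑ s ∈ S, ∑ a, ∑ b, (v ((φ s : Matrix (Fin m) (Fin m) K) a b) +
          v ((φ s⁻¹ : Matrix (Fin m) (Fin m) K) a b)) := by
        refine le_trans ?_ (Finset.single_le_sum (f := fun s => ∑ a, ∑ b,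
          (v ((φ s : Matrix (Fin m) (Fin m) K) a b) +
          v ((φ s⁻¹ : Matrix (Fin m) (Fin m) K) a b)))
          (fun s _ => Finset.sum_nonneg fun a _ => Finset.sum_nonneg fun b _ =>
            add_nonneg (v.nonneg _) (v.nonneg _)) hs)
        refine le_trans ?_ (Finset.single_le_sum (f := fun a => ∑ b,
          (v ((φ s : Matrix (Fin m) (Fin m) K) a b) +
          v ((φ s⁻¹ : Matrix (Fin m) (Fin m) K) a b)))
          (fun a _ => Finset.sum_nonneg fun b _ => add_nonneg (v.nonneg _) (v.nonneg _))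
          (Finset.mem_univ a))
        exact Finset.single_le_sum (f := fun b => v ((φ s : Matrix (Fin m) (Fin m) K) a b) +
          v ((φ s⁻¹ : Matrix (Fin m) (Fin m) K) a b))
          (fun b _ => add_nonneg (v.nonneg _) (v.nonneg _)) (Finset.mem_univ b)
      have h2 := v.nonneg ((φ s : Matrix (Fin m) (Fin m) K) a b)
      have h3 := v.nonneg ((φ s⁻¹ : Matrix (Fin m) (Fin m) K) a b)
      constructor <;> linarith
  obtain ⟨F, hF⟩ : ∃ F : Γ → Fin m → ℝ, F = fun x j =>
      rowLog v (φ x : Matrix (Fin m) (Fin m) K) j := ⟨_, rfl⟩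
  have hunit : ∀ x, IsUnit ((φ x : Matrix (Fin m) (Fin m) K)).det := fun x =>
    (Matrix.isUnit_iff_isUnit_det _).1 (φ x).isUnit
  set c0 : ℝ := m * Real.log τ with hc0
  have hc0' : 0 ≤ c0 := mul_nonneg (Nat.cast_nonneg _) (Real.log_nonneg hτ1)
  have hslow : ∀ x, ∀ s ∈ S, ∀ j, |F (x * s) j - F x j| ≤ c0 := by
    intro x s hs j
    have h1 := rowLog_slow hv (φ x : Matrix (Fin m) (Fin m) K) (φ s) (φ s⁻¹) (hunit x)
      (by rw [map_inv]; exact Units.mul_inv _) hτ1 (fun a b => (hτ s hs a b).1)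
      (fun a b => (hτ s hs a b).2) j
    rw [hF]
    simp only [map_mul, Units.val_mul]
    exact h1
  -- the degrees, the exponents, the projection
  obtain ⟨D, hD⟩ : ∃ D : ℕ, ∀ a b, (P a b).totalDegree ≤ D := by
    refine ⟨∑ a, ∑ b, (P a b).totalDegree, fun a b => ?_⟩
    refine le_trans ?_ (Finset.single_le_sum (f := fun a => ∑ b, (P a b).totalDegree)
      (fun a _ => Nat.zero_le _) (Finset.mem_univ a))
    exact Finset.single_le_sum (f := fun b => (P a b).totalDegree)
      (fun b _ => Nat.zero_le _) (Finset.mem_univ b)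
  obtain ⟨E, hE⟩ := exists_relation.{u} d (m * D)
  obtain ⟨π, C, hC0, hC⟩ := exists_proj m d E
  obtain ⟨cπ, hcπ0, hcπ⟩ := linear_bound π
  -- the relations
  have hrel : ∀ (x : Γ) (σ : ∀ j : Fin m, Fin ((j : ℕ) + 1) → Fin m) (J : Fin (d + 1) → Fin m),
      ∃ c : (Fin (d + 1) → Fin (E + 1)) → K, c ≠ 0 ∧ ∀ t : Fin d → K,
        ∑ α, c α * ∏ i, (MvPolynomial.eval t
          (minorPoly (φ x : Matrix (Fin m) (Fin m) K) P (J i) (σ (J i)))) ^ (α i : ℕ) = 0 :=
    fun x σ J => hE K _ fun i => degree_minorPoly _ P hD _ _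
  choose co hco0 hco using hrel
  set Λ : ℝ := cπ * c0 / ε + 1 with hΛ
  have hΛ0 : 0 < Λ := by positivity
  -- the classes
  have hclass : ∀ x b : Γ, ∃ c : Cls m d E, x⁻¹ * b ∈ L →
      ∀ J : {J : Fin (d + 1) → Fin m // Function.Injective J},
        (c.2 J).1 ≠ (c.2 J).2 ∧
        ∑ i, ((((c.2 J).1 i : ℕ) : ℝ) - (((c.2 J).2 i : ℕ) : ℝ)) * F b (J.1 i) =
          Real.log (v (co x c.1 J.1 (c.2 J).2)) - Real.log (v (co x c.1 J.1 (c.2 J).1)) := by
    intro x b
    by_cases hb : x⁻¹ * b ∈ L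
    · choose σ hσ using fun j => exists_rmax v (φ b : Matrix (Fin m) (Fin m) K) j
      have hz : ∀ j, minor (φ b : Matrix (Fin m) (Fin m) K) j (σ j) ≠ 0 := by
        intro j h0
        have h1 := rmax_pos hv (φ b : Matrix (Fin m) (Fin m) K) (hunit b) j
        rw [← hσ j, h0, map_zero] at h1
        exact lt_irrefl _ h1
      have hev : ∀ j, MvPolynomial.eval (y (x⁻¹ * b))
          (minorPoly (φ x : Matrix (Fin m) (Fin m) K) P j (σ j)) =
          minor (φ b : Matrix (Fin m) (Fin m) K) j (σ j) := by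
        intro j
        rw [eval_minorPoly _ (φ (x⁻¹ * b) : Matrix (Fin m) (Fin m) K) P _ (hP _ hb)]
        have h1 : φ x * φ (x⁻¹ * b) = φ b := by
          rw [← map_mul, mul_inv_cancel_left]
        rw [← Units.val_mul, h1]
      have htr : ∀ J : {J : Fin (d + 1) → Fin m // Function.Injective J},
          ∃ αβ : (Fin (d + 1) → Fin (E + 1)) × (Fin (d + 1) → Fin (E + 1)),
          αβ.1 ≠ αβ.2 ∧ ∑ i, (((αβ.1 i : ℕ) : ℝ) - ((αβ.2 i : ℕ) : ℝ)) * F b (J.1 i) =
            Real.log (v (co x σ J.1 αβ.2)) - Real.log (v (co x σ J.1 αβ.1)) := by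
        intro J
        have h1 := hco x σ J.1 (y (x⁻¹ * b))
        simp only [hev] at h1
        obtain ⟨α, β, hne, h2⟩ := tropical hv (co x σ J.1) (hco0 x σ J.1)
          (fun i => minor (φ b : Matrix (Fin m) (Fin m) K) (J.1 i) (σ (J.1 i)))
          (fun i => hz _) h1
        refine ⟨(α, β), hne, ?_⟩
        rw [← h2]
        refine Finset.sum_congr rfl fun i _ => ?_
        rw [hF]
        simp only [rowLog]
        rw [← hσ (J.1 i)]
      choose αβ h1 h2 using htr
      exact ⟨(σ, αβ), fun _ J => ⟨h1 J, h2 J⟩⟩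
    · refine ⟨(fun j _ => j, fun _ => (fun _ => 0, fun _ => 0)), fun h => absurd h hb⟩
  choose cl hcl using hclass
  -- two points of one class
  have hsame : ∀ x a b : Γ, x⁻¹ * a ∈ L → x⁻¹ * b ∈ L → cl x a = cl x b → ∀ η : ℝ, 0 ≤ η →
      (∀ l, |π (fun j => F a j - F b j) l| ≤ η) → ∀ j, |F a j - F b j| ≤ C * η := by
    intro x a b ha hb hab η hη hl
    refine hC (fun j => F a j - F b j) ?_ η hη hl
    intro J hJ
    obtain ⟨h1, h2⟩ := hcl x a ha ⟨J, hJ⟩
    obtain ⟨h3, h4⟩ := hcl x b hb ⟨J, hJ⟩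
    rw [← hab] at h3 h4
    refine ⟨fun i => (((cl x a).2 ⟨J, hJ⟩).1 i : ℤ) - (((cl x a).2 ⟨J, hJ⟩).2 i : ℤ), ?_, ?_, ?_⟩
    · intro h0
      apply h1
      funext i
      have h5 := congrFun h0 i
      simp only [Pi.zero_apply] at h5
      apply Fin.ext
      omega
    · intro i
      have h5 := (((cl x a).2 ⟨J, hJ⟩).1 i).2
      have h6 := (((cl x a).2 ⟨J, hJ⟩).2 i).2
      have h7 : |((((cl x a).2 ⟨J, hJ⟩).1 i : ℕ) : ℤ) - ((((cl x a).2 ⟨J, hJ⟩).2 i : ℕ) : ℤ)| ≤
          (E : ℤ) := by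
        rw [abs_le]
        constructor <;> omega
      exact h7
    · have h5 : ∑ i, (((((cl x a).2 ⟨J, hJ⟩).1 i : ℕ) : ℝ) -
          ((((cl x a).2 ⟨J, hJ⟩).2 i : ℕ) : ℝ)) * (F a (J i) - F b (J i)) = 0 := by
        simp only [mul_sub, Finset.sum_sub_distrib]
        have e1 := h2
        have e2 := h4
        simp only [] at e1 e2
        rw [e1, e2, sub_self]
      rw [← h5]
      refine Finset.sum_congr rfl fun i _ => ?_
      push_cast
      rfl
  obtain ⟨g, hg⟩ : ∃ g : Γ → Fin d → ℝ, g = fun x l => π (F x) l / Λ := ⟨_, rfl⟩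
  set R : ℝ := (Fintype.card (Cls m d E) : ℝ) * (C * (2 * Λ) + c0 + 1) with hR
  obtain ⟨ρ, hρ⟩ := rowLog_light hv m τ R
  have hπsub : ∀ (a b : Γ) (l : Fin d), π (fun j => F a j - F b j) l = π (F a) l - π (F b) l := by
    intro a b l
    have h1 : (fun j => F a j - F b j) = F a - F b := rfl
    rw [h1, map_sub, Pi.sub_apply]
  refine ⟨g, ρ, ?_, ?_⟩
  · intro x s hs l
    have h1 := hcπ (fun j => F (x * s) j - F x j) c0 hc0' (hslow x s hs) l
    rw [hπsub] at h1
    rw [hg]
    simp only []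
    rw [← sub_div, abs_div, abs_of_pos hΛ0, div_le_iff₀ hΛ0]
    refine h1.trans ?_
    rw [hΛ, mul_add, mul_one, mul_div_cancel₀ _ hε.ne']
    linarith
  · intro x z hxz
    set T : Set Γ := {s | s ∈ S ∧ s ∈ L} with hT
    have hTL : ∀ s ∈ T, s ∈ L := fun s hs => hs.2
    have hQ : ∀ a, Chain T (fun b => Near (g b) (g x) 1) x a → Near (g a) (g x) 1 := fun a ha =>
      Chain.last (P := fun b => Near (g b) (g x) 1) (Near.refl _ zero_le_one) ha
    have hπ : ∀ a, Chain T (fun b => Near (g b) (g x) 1) x a → ∀ l,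
        |π (F a) l - π (F x) l| ≤ Λ := by
      intro a ha l
      have h1 := hQ a ha l
      rw [hg] at h1
      simp only [] at h1
      rw [← sub_div, abs_div, abs_of_pos hΛ0, div_le_one hΛ0] at h1
      exact h1
    have hbound : ∀ a, Chain T (fun b => Near (g b) (g x) 1) x a → ∀ j,
        |F a j - F x j| ≤ R := by
      intro a ha j
      refine chain_range T (fun b => Near (g b) (g x) 1) x (cl x) (fun b => F b j)
        (C * (2 * Λ)) c0 (mul_nonneg hC0 (by positivity)) hc0' ?_ ?_ ha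
      · intro a b ha hb hab
        refine hsame x a b (ha.mem_subgroup L hTL) (hb.mem_subgroup L hTL) hab (2 * Λ)
          (by positivity) ?_ j
        intro l
        rw [hπsub]
        have h1 := hπ a ha l
        have h2 := hπ b hb l
        rw [abs_le] at h1 h2 ⊢
        constructor <;> linarith [h1.1, h1.2, h2.1, h2.2]
      · intro a b _ hs
        have h1 := hslow a (a⁻¹ * b) hs.1 j
        rwa [mul_inv_cancel_left] at h1
    have hchain : Chain T (fun b => ∀ j, |rowLog v (φ b : Matrix (Fin m) (Fin m) K) j -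
        rowLog v (φ x : Matrix (Fin m) (Fin m) K) j| ≤ R) x z := by
      have h1 := Chain.strengthen hxz (R := fun b => (∀ j, |F b j - F x j| ≤ R)) ?_ ?_
      · refine h1.1.mono (Set.Subset.refl _) ?_
        intro b hb j
        have h2 := hb.2 j
        rw [hF] at h2
        exact h2
      · exact hbound x (Chain.refl _ _ _)
      · intro a b ha _ hs hPb
        exact hbound b (ha.step hs hPb)
    exact hρ φ T (fun s hs a b => (hτ s hs.1 a b).1) x z hchain

end Pool.Agent.Helper58.GI
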