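import Mathlib

/-!
GLINF GL1. Any `d + 1` polynomials in `d` variables of bounded degree are algebraically dependent,
with a relation whose exponents are bounded.

Proof. `E` with `((d + 1) * E * D + 1) ^ d < (E + 1) ^ (d + 1)`, for instance
`E = ((d + 1) * D + 1) ^ d` (because `(d + 1) * E * D + 1 ≤ ((d + 1) * D + 1) * (E + 1)`). Put
`B = (d + 1) * E * D`. The linear map which sends `c` to the coefficients
`β ↦ ∑ α, c α * coeff β (∏ i, f i ^ α i)`, `β : Fin d → Fin (B + 1)` (as a `Finsupp`), has a nonzero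
kernel by dimension (`LinearMap.exists_ne_zero_of_finrank_lt` or similar). For `c` in the kernel the
polynomial `∑ α, C (c α) * ∏ i, f i ^ α i` is zero: its total degree is at most `B`, so the
coefficients at exponents outside the box vanish, the others by the choice of `c`. Evaluate at `y`.

Statement by helper58, proof by helper83.
-/

set_option autoImplicit false

namespace Pool.Agent.Helper58.GI

universe u

/-- The numerical choice of the exponent bound. -/
theorem num_lt (d D : ℕ) :
    ((d + 1) * (((d + 1) * D + 1) ^ d * D) + 1) ^ d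
      < (((d + 1) * D + 1) ^ d + 1) ^ (d + 1) := by
  set A : ℕ := (d + 1) * D + 1 with hA
  have h1 : (d + 1) * (A ^ d * D) + 1 ≤ A * (A ^ d + 1) := by
    have : A * (A ^ d + 1) = (d + 1) * (A ^ d * D) + A ^ d + A := by
      rw [hA]; ring
    rw [this]
    have : 1 ≤ A := by rw [hA]; omega
    omega
  calc ((d + 1) * (A ^ d * D) + 1) ^ d ≤ (A * (A ^ d + 1)) ^ d := Nat.pow_le_pow_left h1 d
    _ = A ^ d * (A ^ d + 1) ^ d := by rw [mul_pow]
    _ < (A ^ d + 1) * (A ^ d + 1) ^ d :=
        Nat.mul_lt_mul_of_pos_right (Nat.lt_succ_self _) (pow_pos (Nat.succ_pos _) _)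
    _ = (A ^ d + 1) ^ (d + 1) := by rw [pow_succ, mul_comm]

/-- The product of bounded powers has bounded total degree. -/
theorem totalDegree_prod_pow_le {K : Type u} [Field K] {d D E : ℕ}
    (f : Fin (d + 1) → MvPolynomial (Fin d) K) (hf : ∀ i, (f i).totalDegree ≤ D)
    (α : Fin (d + 1) → Fin (E + 1)) :
    (∏ i, f i ^ (α i : ℕ)).totalDegree ≤ (d + 1) * (E * D) := by
  refine (MvPolynomial.totalDegree_finsetProd _ _).trans ?_
  have : ∀ i ∈ (Finset.univ : Finset (Fin (d + 1))), (f i ^ (α i : ℕ)).totalDegree ≤ E * D := by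
    intro i _
    refine (MvPolynomial.totalDegree_pow _ _).trans ?_
    exact Nat.mul_le_mul (Nat.lt_succ_iff.mp (α i).2) (hf i)
  refine (Finset.sum_le_sum this).trans ?_
  simp

theorem exists_relation (d D : ℕ) : ∃ E : ℕ, ∀ (K : Type u) [Field K]
    (f : Fin (d + 1) → MvPolynomial (Fin d) K), (∀ i, (f i).totalDegree ≤ D) →
    ∃ c : (Fin (d + 1) → Fin (E + 1)) → K, c ≠ 0 ∧
      ∀ y : Fin d → K, ∑ α, c α * ∏ i, (MvPolynomial.eval y (f i)) ^ (α i : ℕ) = 0 := by
  classical
  refine ⟨((d + 1) * D + 1) ^ d, ?_⟩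
  intro K _ f hf
  set E : ℕ := ((d + 1) * D + 1) ^ d with hE
  set B : ℕ := (d + 1) * (E * D) with hB
  let Φ : ((Fin (d + 1) → Fin (E + 1)) → K) →ₗ[K] ((Fin d → Fin (B + 1)) → K) :=
    { toFun := fun c β => ∑ α, c α *
        MvPolynomial.coeff (Finsupp.equivFunOnFinite.symm (fun i => (β i : ℕ)))
          (∏ i, f i ^ (α i : ℕ))
      map_add' := by
        intro c c'
        funext β
        simp [add_mul, Finset.sum_add_distrib]
      map_smul' := by
        intro a c
        funext β
        simp [Finset.mul_sum, mul_assoc] }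
  have hlt : Module.finrank K ((Fin d → Fin (B + 1)) → K)
      < Module.finrank K ((Fin (d + 1) → Fin (E + 1)) → K) := by
    simp only [Module.finrank_fintype_fun_eq_card, Fintype.card_fun, Fintype.card_fin]
    exact num_lt d D
  have hker : LinearMap.ker Φ ≠ ⊥ := LinearMap.ker_ne_bot_of_finrank_lt hlt
  obtain ⟨c, hc, hc0⟩ := Submodule.exists_mem_ne_zero_of_ne_bot hker
  refine ⟨c, hc0, ?_⟩
  have hΦ : ∀ β : Fin d → Fin (B + 1), ∑ α, c α *
        MvPolynomial.coeff (Finsupp.equivFunOnFinite.symm (fun i => (β i : ℕ)))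
          (∏ i, f i ^ (α i : ℕ)) = 0 := by
    intro β
    exact congrFun (LinearMap.mem_ker.mp hc) β
  have hP : ∑ α, MvPolynomial.C (c α) * ∏ i, f i ^ (α i : ℕ) = 0 := by
    ext m
    rw [MvPolynomial.coeff_sum, MvPolynomial.coeff_zero]
    simp only [MvPolynomial.coeff_C_mul]
    by_cases hm : ∀ i, m i < B + 1
    · have := hΦ (fun i => ⟨m i, hm i⟩)
      have hmm : (Finsupp.equivFunOnFinite.symm (fun i => m i) : Fin d →₀ ℕ) = m := by
        ext i; simp
      simpa [hmm] using this
    · push Not at hm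
      obtain ⟨i, hi⟩ := hm
      refine Finset.sum_eq_zero ?_
      intro α _
      rw [MvPolynomial.coeff_eq_zero_of_totalDegree_lt, mul_zero]
      refine (totalDegree_prod_pow_le f hf α).trans_lt ?_
      have h1 : m i ≤ ∑ j ∈ m.support, m j := by
        by_cases h0 : m i = 0
        · rw [h0]; exact Nat.zero_le _
        · exact Finset.single_le_sum (f := fun j => m j) (fun _ _ => Nat.zero_le _)
            (Finsupp.mem_support_iff.mpr h0)
      omega
  intro y
  have := congrArg (MvPolynomial.eval y) hP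
  simpa [map_sum, map_mul, map_prod, map_pow] using this

end Pool.Agent.Helper58.GI
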