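import Pool.Agent.Helper58.GI.Class
import Pool.Agent.Helper65.TH.Uniform

/-!
GLINF GL9. The criterion: parameters over `⟨T⟩`, matrices of any size over `⟨S⟩`.

Proof of `thin_of_polyOver`. Data `K, d, n, y, v`. Take `N = n * d` (indices `Fin (n * d)` through
`finProdFinEquiv : Fin n × Fin d ≃ Fin (n * d)`). By `thin_of_local` (file `Helper65/TH/Local.lean`) and
`Thin.comap`, exactly as in `thin_of_uniform` (file `Helper65/TH/Uniform.lean`), it suffices to treat
`Γ = Subgroup.closure (T ∪ F)` and `L = (Subgroup.closure T).subgroupOf Γ`: for finite `F' ⊆ Γ`, `ε > 0`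
use `local_light` for every `v i` with `φ, P` of `S = T ∪ F`, the subgroup `L`, `y` restricted to `Γ`: it
gives `g i`, `ρ i`; `g x (i, l) = g i x l`. A chain on which `g` changes by at most `1` gives
`v i (entries of φ (x⁻¹ z)) ≤ ρ i` for all `i`, hence `v i (y (x⁻¹ z) l) ≤ B` for all `i, l` (`Q l` is a
polynomial: the value of `eval z q` is bounded if the values of all `z p` are bounded by `ρ`; lemma, for
instance by `MvPolynomial.eval_eq` and the ultrametric inequality), and `x⁻¹ z ∈ ⟨T⟩`
(`Chain.mem_subgroup`): a finite set, which we transport to a `Finset Γ`.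
-/

set_option autoImplicit false

namespace Pool.Agent.Helper58.GI

open Pool.Agent.Helper65.TH

universe u

/-- Polynomial parameters over `T`: there are a field `K` with finitely many non-archimedean absolute
values and `d` functions `y` on the group such that only finitely many elements of the subgroup
`⟨T⟩` have bounded parameters, and every finitely generated subgroup `⟨S⟩` containing `T` has a
homomorphism `φ` to some `GL_m(K)` such that on `⟨T⟩` the entries of `φ` are polynomials in the
parameters and the parameters are polynomials in the entries of `φ`. The numbers of parameters and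
of absolute values depend on `T` only, `m` and the degrees may depend on `S`. -/
def PolyOver {G : Type*} [Group G] (T : Finset G) : Prop :=
  ∃ (K : Type u) (_ : Field K) (d n : ℕ) (y : G → Fin d → K) (v : Fin n → AbsoluteValue K ℝ),
    (∀ i, IsNonarchimedean (v i)) ∧
    (∀ B : ℝ, {h : G | h ∈ Subgroup.closure (T : Set G) ∧ ∀ i l, v i (y h l) ≤ B}.Finite) ∧
    ∀ S : Finset G, T ⊆ S → ∃ (m : ℕ) (φ : Subgroup.closure (S : Set G) →* GL (Fin m) K)
      (P : Fin m → Fin m → MvPolynomial (Fin d) K) (Q : Fin d → MvPolynomial (Fin m × Fin m) K),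
      ∀ h : Subgroup.closure (S : Set G), (h : G) ∈ Subgroup.closure (T : Set G) →
        (∀ a b, (φ h : Matrix (Fin m) (Fin m) K) a b = MvPolynomial.eval (y h) (P a b)) ∧
        ∀ l, y h l = MvPolynomial.eval
          (fun p : Fin m × Fin m => (φ h : Matrix (Fin m) (Fin m) K) p.1 p.2) (Q l)

/-- a polynomial is bounded on a set where the variables are bounded -/
theorem exists_bound_eval {K : Type*} [Field K] (v : AbsoluteValue K ℝ) {σ : Type*} [Fintype σ]
    (q : MvPolynomial σ K) (ρ : ℝ) :
    ∃ B : ℝ, 0 ≤ B ∧ ∀ z : σ → K, (∀ p, v (z p) ≤ ρ) → v (MvPolynomial.eval z q) ≤ B := by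
  refine ⟨∑ s ∈ q.support, v (q.coeff s) * ∏ p : σ, (max ρ 0) ^ (s p), ?_, ?_⟩
  · refine Finset.sum_nonneg fun s _ => mul_nonneg (v.nonneg _) ?_
    exact Finset.prod_nonneg fun p _ => pow_nonneg (le_max_right _ _) _
  · intro z hz
    rw [MvPolynomial.eval_eq']
    refine (v.sum_le _ _).trans (Finset.sum_le_sum fun s _ => ?_)
    rw [map_mul, map_prod]
    refine mul_le_mul_of_nonneg_left ?_ (v.nonneg _)
    refine Finset.prod_le_prod (fun p _ => v.nonneg _) fun p _ => ?_
    rw [map_pow]
    exact pow_le_pow_left₀ (v.nonneg _) ((hz p).trans (le_max_left _ _)) _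

/-- thinness in one finitely generated group -/
theorem thin_of_data {K : Type u} [Field K] {d n m : ℕ} (v : Fin n → AbsoluteValue K ℝ)
    (hv : ∀ i, IsNonarchimedean (v i)) {Γ : Type*} [Group Γ] (L : Subgroup Γ)
    (y : Γ → Fin d → K) (hfin : ∀ B : ℝ, {h : Γ | h ∈ L ∧ ∀ i l, v i (y h l) ≤ B}.Finite)
    (φ : Γ →* GL (Fin m) K) (P : Fin m → Fin m → MvPolynomial (Fin d) K)
    (Q : Fin d → MvPolynomial (Fin m × Fin m) K)
    (hPQ : ∀ h ∈ L, (∀ a b, (φ h : Matrix (Fin m) (Fin m) K) a b = MvPolynomial.eval (y h) (P a b)) ∧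
        ∀ l, y h l = MvPolynomial.eval
          (fun p : Fin m × Fin m => (φ h : Matrix (Fin m) (Fin m) K) p.1 p.2) (Q l)) :
    Thin L (n * d) := by
  classical
  intro F ε hε
  have hloc : ∀ i : Fin n, ∃ (g : Γ → Fin d → ℝ) (ρ : ℝ),
      (∀ x, ∀ s ∈ F, Near (g (x * s)) (g x) ε) ∧
      ∀ x z, Chain {s | s ∈ F ∧ s ∈ L} (fun b => Near (g b) (g x) 1) x z →
        ∀ a b, v i ((φ (x⁻¹ * z) : Matrix (Fin m) (Fin m) K) a b) ≤ ρ := fun i =>
    local_light (hv i) φ L y P (fun h hh => (hPQ h hh).1) F ε hε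
  choose g ρ hg hρ using hloc
  have hB : ∀ (i : Fin n) (l : Fin d), ∃ B : ℝ, 0 ≤ B ∧ ∀ z : Fin m × Fin m → K,
      (∀ p, v i (z p) ≤ ρ i) → v i (MvPolynomial.eval z (Q l)) ≤ B := fun i l =>
    exists_bound_eval (v i) (Q l) (ρ i)
  choose B hB0 hB using hB
  refine ⟨fun x p => g (finProdFinEquiv.symm p).1 x (finProdFinEquiv.symm p).2,
    (hfin (∑ i, ∑ l, B i l)).toFinset, ?_, ?_⟩
  · intro x s hs p
    exact hg _ x s hs _
  · intro x z hxz
    rw [Set.Finite.mem_toFinset]
    have hL : x⁻¹ * z ∈ L := hxz.mem_subgroup L (fun s hs => hs.2)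
    refine ⟨hL, fun i l => ?_⟩
    rw [(hPQ _ hL).2 l]
    have h1 : ∀ a b, v i ((φ (x⁻¹ * z) : Matrix (Fin m) (Fin m) K) a b) ≤ ρ i := by
      refine hρ i x z (hxz.mono (Set.Subset.refl _) ?_)
      intro b hb j
      have h2 := hb (finProdFinEquiv (i, j))
      simp only [Equiv.symm_apply_apply] at h2
      exact h2
    refine (hB i l _ (fun p => h1 p.1 p.2)).trans ?_
    have h3 : B i l ≤ ∑ l', B i l' :=
      Finset.single_le_sum (f := fun l' => B i l') (fun l' _ => hB0 i l') (Finset.mem_univ l)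
    have h4 : (∑ l', B i l') ≤ ∑ i', ∑ l', B i' l' :=
      Finset.single_le_sum (f := fun i' => ∑ l', B i' l')
        (fun i' _ => Finset.sum_nonneg fun l' _ => hB0 i' l') (Finset.mem_univ i)
    exact h3.trans h4

theorem thin_of_polyOver {G : Type*} [Group G] (T : Finset G) (h : PolyOver.{u} T) :
    ∃ N, Thin (Subgroup.closure (T : Set G)) N := by
  classical
  obtain ⟨K, _, d, n, y, v, hv, hfin, hS⟩ := h
  refine ⟨n * d, thin_of_local _ _ fun K' hK => ?_⟩
  obtain ⟨F, hF⟩ := hK
  obtain ⟨m, φ, P, Q, hPQ⟩ := hS (T ∪ F) Finset.subset_union_left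
  have hKΓ : K' ≤ Subgroup.closure ((T ∪ F : Finset G) : Set G) := by
    rw [← hF]
    apply Subgroup.closure_mono
    rw [Finset.coe_union]
    exact Set.subset_union_right
  have h1 : Thin ((Subgroup.closure (T : Set G)).subgroupOf
      (Subgroup.closure ((T ∪ F : Finset G) : Set G))) (n * d) := by
    refine thin_of_data v hv _ (fun h => y h) ?_ φ P Q ?_
    · intro B
      have h2 := (hfin B).preimage
        (f := fun h : Subgroup.closure ((T ∪ F : Finset G) : Set G) => (h : G))
        (Subtype.val_injective.injOn)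
      refine h2.subset ?_
      rintro x ⟨hx1, hx2⟩
      rw [Subgroup.mem_subgroupOf] at hx1
      exact ⟨hx1, hx2⟩
    · intro h hh
      rw [Subgroup.mem_subgroupOf] at hh
      exact hPQ h hh
  have h2 := h1.comap (Subgroup.inclusion hKΓ) (Subgroup.inclusion_injective hKΓ)
  have h3 : ((Subgroup.closure (T : Set G)).subgroupOf
      (Subgroup.closure ((T ∪ F : Finset G) : Set G))).comap (Subgroup.inclusion hKΓ) =
      (Subgroup.closure (T : Set G)).subgroupOf K' := by
    ext x
    simp only [Subgroup.mem_comap, Subgroup.mem_subgroupOf, Subgroup.coe_inclusion]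
  rw [h3] at h2
  exact h2

end Pool.Agent.Helper58.GI
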