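import Mathlib

/-!
GLINF. Maxima of row minors of a matrix for a non-archimedean absolute value.
-/

set_option autoImplicit false

namespace Pool.Agent.Helper58.GI

open Finset

variable {K : Type*} [Field K] {m : ℕ}

/-- the minor of `X` with rows `0, ..., j` and columns `f 0, ..., f j` -/
def minor (X : Matrix (Fin m) (Fin m) K) (j : Fin m) (f : Fin (j + 1) → Fin m) : K :=
  (X.submatrix (Fin.castLE (Nat.succ_le_of_lt j.2)) f).det

/-- the largest value of a minor of `X` with rows `0, ..., j` -/
noncomputable def rmax (v : AbsoluteValue K ℝ) (X : Matrix (Fin m) (Fin m) K) (j : Fin m) : ℝ :=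
  ⨆ f : Fin (j + 1) → Fin m, v (minor X j f)

variable (v : AbsoluteValue K ℝ)

lemma minor_mul (X S : Matrix (Fin m) (Fin m) K) (j : Fin m) (f : Fin (j + 1) → Fin m) :
    minor (X * S) j f =
      ∑ g : Fin (j + 1) → Fin m, (∏ i, S (g i) (f i)) * minor X j g := by
  unfold minor
  rw [← Matrix.det_transpose]
  have h1 : ((X * S).submatrix (Fin.castLE (Nat.succ_le_of_lt j.2)) f).transpose =
      Matrix.of (fun i : Fin (j + 1) => ∑ k : Fin m,
        S k (f i) • (fun a : Fin (j + 1) => X (Fin.castLE (Nat.succ_le_of_lt j.2) a) k)) := by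
    ext i a
    simp only [Matrix.transpose_apply, Matrix.submatrix_apply, Matrix.mul_apply, Matrix.of_apply,
      Finset.sum_apply, Pi.smul_apply, smul_eq_mul]
    exact Finset.sum_congr rfl fun k _ => mul_comm _ _
  rw [h1]
  have h2 := (Matrix.detRowAlternating (n := Fin (j + 1)) (R := K)).toMultilinearMap.map_sum
    (fun (i : Fin (j + 1)) (k : Fin m) =>
      S k (f i) • (fun a : Fin (j + 1) => X (Fin.castLE (Nat.succ_le_of_lt j.2) a) k))
  have h3 : (Matrix.of (fun i : Fin (j + 1) => ∑ k : Fin m,
        S k (f i) • (fun a : Fin (j + 1) => X (Fin.castLE (Nat.succ_le_of_lt j.2) a) k))).det =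
      (Matrix.detRowAlternating (n := Fin (j + 1)) (R := K)).toMultilinearMap
        (fun i : Fin (j + 1) => ∑ k : Fin m,
        S k (f i) • (fun a : Fin (j + 1) => X (Fin.castLE (Nat.succ_le_of_lt j.2) a) k)) := rfl
  rw [h3, h2]
  refine Finset.sum_congr rfl fun g _ => ?_
  have h4 := (Matrix.detRowAlternating (n := Fin (j + 1)) (R := K)).toMultilinearMap.map_smul_univ
    (fun i => S (g i) (f i))
    (fun (i : Fin (j + 1)) => (fun a : Fin (j + 1) => X (Fin.castLE (Nat.succ_le_of_lt j.2) a) (g i)))
  rw [h4, smul_eq_mul]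
  congr 1
  have h5 : (Matrix.detRowAlternating (n := Fin (j + 1)) (R := K)).toMultilinearMap
      (fun (i : Fin (j + 1)) => (fun a : Fin (j + 1) =>
        X (Fin.castLE (Nat.succ_le_of_lt j.2) a) (g i))) =
      ((X.submatrix (Fin.castLE (Nat.succ_le_of_lt j.2)) g).transpose).det := rfl
  rw [h5, Matrix.det_transpose]

lemma le_rmax (X : Matrix (Fin m) (Fin m) K) (j : Fin m) (f : Fin (j + 1) → Fin m) :
    v (minor X j f) ≤ rmax v X j :=
  le_ciSup (f := fun f : Fin (j + 1) → Fin m => v (minor X j f))
    (Set.finite_range _).bddAbove f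

lemma exists_rmax (X : Matrix (Fin m) (Fin m) K) (j : Fin m) :
    ∃ f : Fin (j + 1) → Fin m, v (minor X j f) = rmax v X j := by
  have : Nonempty (Fin (j + 1) → Fin m) := ⟨fun _ => j⟩
  exact exists_eq_ciSup_of_finite

lemma rmax_le (X : Matrix (Fin m) (Fin m) K) (j : Fin m) {c : ℝ}
    (h : ∀ f : Fin (j + 1) → Fin m, v (minor X j f) ≤ c) : rmax v X j ≤ c := by
  obtain ⟨f, hf⟩ := exists_rmax v X j
  rw [← hf]
  exact h f

lemma rmax_nonneg (X : Matrix (Fin m) (Fin m) K) (j : Fin m) : 0 ≤ rmax v X j :=
  (v.nonneg _).trans (le_rmax v X j fun _ => j)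

variable {v}

lemma sum_le_of_na (hv : IsNonarchimedean v) {ι : Type*} (s : Finset ι) (t : ι → K) {c : ℝ}
    (hc : 0 ≤ c) (h : ∀ i ∈ s, v (t i) ≤ c) : v (∑ i ∈ s, t i) ≤ c := by
  classical
  induction s using Finset.induction_on with
  | empty => simpa using hc
  | insert a s ha ih =>
    rw [Finset.sum_insert ha]
    refine (hv _ _).trans (max_le (h a (Finset.mem_insert_self a s)) ?_)
    exact ih fun i hi => h i (Finset.mem_insert_of_mem hi)

theorem rmax_mul_le (hv : IsNonarchimedean v) (X S : Matrix (Fin m) (Fin m) K) {τ : ℝ}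
    (hτ : 0 ≤ τ) (hS : ∀ a b, v (S a b) ≤ τ) (j : Fin m) :
    rmax v (X * S) j ≤ τ ^ ((j : ℕ) + 1) * rmax v X j := by
  refine rmax_le v _ _ fun f => ?_
  rw [minor_mul]
  refine sum_le_of_na hv _ _ (mul_nonneg (pow_nonneg hτ _) (rmax_nonneg v X j)) fun g _ => ?_
  rw [map_mul, map_prod]
  refine mul_le_mul ?_ (le_rmax v X j g) (v.nonneg _) (pow_nonneg hτ _)
  calc ∏ i, v (S (g i) (f i)) ≤ ∏ _i : Fin ((j : ℕ) + 1), τ :=
        Finset.prod_le_prod (fun i _ => v.nonneg _) fun i _ => hS _ _
    _ = τ ^ ((j : ℕ) + 1) := by simp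

theorem rmax_mul_eq (hv : IsNonarchimedean v) (X S S' : Matrix (Fin m) (Fin m) K)
    (hSS : S * S' = 1) (hS : ∀ a b, v (S a b) ≤ 1) (hS' : ∀ a b, v (S' a b) ≤ 1) (j : Fin m) :
    rmax v (X * S) j = rmax v X j := by
  apply le_antisymm
  · simpa using rmax_mul_le hv X S zero_le_one hS j
  · have h := rmax_mul_le hv (X * S) S' zero_le_one hS' j
    rw [Matrix.mul_assoc, hSS, Matrix.mul_one, one_pow, one_mul] at h
    exact h

/-- the row minors of a lower triangular matrix -/
theorem rmax_lower (b : Matrix (Fin m) (Fin m) K) (hb : ∀ i j, i < j → b i j = 0) (j : Fin m) :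
    rmax v b j = ∏ i : Fin ((j : ℕ) + 1), v (b (Fin.castLE (Nat.succ_le_of_lt j.2) i)
      (Fin.castLE (Nat.succ_le_of_lt j.2) i)) := by
  set r : Fin ((j : ℕ) + 1) → Fin m := Fin.castLE (Nat.succ_le_of_lt j.2) with hr
  have hdet : (b.submatrix r r).det = ∏ i, b (r i) (r i) := by
    apply Matrix.det_of_lowerTriangular
    intro i k hik
    exact hb _ _ (by
      rw [hr]
      exact (Fin.castLE_lt_castLE_iff _).2 hik)
  have hprod : v (b.submatrix r r).det = ∏ i, v (b (r i) (r i)) := by
    rw [hdet, map_prod]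
  apply le_antisymm
  · refine rmax_le v _ _ fun f => ?_
    by_cases hf : ∃ i, (j : ℕ) < f i
    · obtain ⟨i, hi⟩ := hf
      have h0 : minor b j f = 0 := by
        unfold minor
        apply Matrix.det_eq_zero_of_column_eq_zero i
        intro a
        rw [Matrix.submatrix_apply]
        apply hb
        rw [Fin.lt_def]
        have := a.2
        simp only [Fin.val_castLE]
        omega
      rw [h0, map_zero]
      exact Finset.prod_nonneg fun i _ => v.nonneg _
    · push Not at hf
      let f' : Fin ((j : ℕ) + 1) → Fin ((j : ℕ) + 1) := fun i => ⟨f i, Nat.lt_succ_of_le (hf i)⟩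
      have hff : f = r ∘ f' := by
        funext i
        apply Fin.ext
        simp [f', hr]
      by_cases hinj : Function.Injective f'
      · have hbij : Function.Bijective f' := Finite.injective_iff_bijective.1 hinj
        let σ : Equiv.Perm (Fin ((j : ℕ) + 1)) := Equiv.ofBijective f' hbij
        have h1 : minor b j f = Equiv.Perm.sign σ * (b.submatrix r r).det := by
          unfold minor
          rw [← Matrix.det_permute' σ, hff]
          rfl
        rw [h1, map_mul, hprod]
        have h2 : v ((Equiv.Perm.sign σ : ℤ) : K) = 1 := by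
          rcases Int.units_eq_one_or (Equiv.Perm.sign σ) with h | h <;> simp [h]
        rw [h2, one_mul]
      · rw [Function.not_injective_iff] at hinj
        obtain ⟨a, c, hac, hne⟩ := hinj
        have h0 : minor b j f = 0 := by
          unfold minor
          apply Matrix.det_zero_of_column_eq hne
          intro k
          rw [Matrix.submatrix_apply, Matrix.submatrix_apply, hff]
          simp [hac]
        rw [h0, map_zero]
        exact Finset.prod_nonneg fun i _ => v.nonneg _
  · rw [← hprod]
    exact le_rmax v b j r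

end Pool.Agent.Helper58.GI
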