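import Pool.Agent.Helper58.GI.PolyOver
import Pool.Agent.Helper61.Apc.Final

/-!
GLINF. Directed unions of linear groups with polynomial transition maps: the parameters over `T` are the
entries of `ρ i g` and of `(ρ i g)⁻¹`, where `T` lies in the subgroup `H i`. The non-archimedean
absolute values suffice in positive characteristic, and in characteristic zero for matrices over the
algebraic numbers with bounded archimedean absolute values (for instance orthogonal matrices over
totally real fields).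
-/

set_option autoImplicit false

namespace Pool.Agent.Helper58.GI

open Pool.Agent.Helper65.TH Pool.Agent.Helper61.Apc

universe u w

/-- the entries of `g` and the entries of `g⁻¹` -/
def ent {K : Type*} [Field K] {n : ℕ} (g : GL (Fin n) K) :
    (Fin n × Fin n) ⊕ (Fin n × Fin n) → K :=
  Sum.elim (fun p => (g : Matrix (Fin n) (Fin n) K) p.1 p.2)
    (fun p => ((g⁻¹ : GL (Fin n) K) : Matrix (Fin n) (Fin n) K) p.1 p.2)

/-- the entries of `σ h` are polynomials in the entries of `ρ h` and `(ρ h)⁻¹` -/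
def PolyIn {K : Type*} [Field K] {H : Type*} [Group H] {n m : ℕ} (ρ : H →* GL (Fin n) K)
    (σ : H →* GL (Fin m) K) : Prop :=
  ∃ P : Fin m → Fin m → MvPolynomial ((Fin n × Fin n) ⊕ (Fin n × Fin n)) K,
    ∀ h a b, (σ h : Matrix (Fin m) (Fin m) K) a b = MvPolynomial.eval (ent (ρ h)) (P a b)

/-- `H ≤ H'`, and on `H` the entries of `ρ' g` are polynomials in the entries of `ρ g` and `(ρ g)⁻¹`,
and the entries of `ρ g` are polynomials in the entries of `ρ' g` and `(ρ' g)⁻¹`. -/
def PolyLe {K : Type*} [Field K] {G : Type*} [Group G] {H H' : Subgroup G} {n m : ℕ}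
    (ρ : H →* GL (Fin n) K) (ρ' : H' →* GL (Fin m) K) : Prop :=
  ∃ h : H ≤ H', PolyIn ρ (ρ'.comp (Subgroup.inclusion h)) ∧
    PolyIn (ρ'.comp (Subgroup.inclusion h)) ρ

/-- The non-archimedean absolute values suffice for `ρ`: for every finitely generated subgroup of `H`
there are finitely many non-archimedean absolute values of `K` such that only finitely many elements `h`
of the subgroup have entries of `ρ h` and `(ρ h)⁻¹` with given bounds. -/
def NonarchProper {K : Type*} [Field K] {G : Type*} [Group G] {H : Subgroup G} {n : ℕ}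
    (ρ : H →* GL (Fin n) K) : Prop :=
  ∀ T : Finset G, (∀ t ∈ T, t ∈ H) → ∃ (k : ℕ) (v : Fin k → AbsoluteValue K ℝ),
    (∀ j, IsNonarchimedean (v j)) ∧
    ∀ B : ℝ, {h : H | (h : G) ∈ Subgroup.closure (T : Set G) ∧
      ∀ j s, v j (ent (ρ h) s) ≤ B}.Finite

/-- `G` is the union of a family of subgroups `H i` with homomorphisms `ρ i : H i → GL_{n_i}(K)` for
which the non-archimedean absolute values suffice, and in which any two members lie below a third
one in the sense of `PolyLe`: a direct limit of linear groups over `K` along restrictions of closed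
embeddings of linear algebraic groups. -/
def AlgUnion (K : Type u) [Field K] (G : Type w) [Group G] : Prop :=
  ∃ (ι : Type w) (H : ι → Subgroup G) (n : ι → ℕ) (ρ : ∀ i, H i →* GL (Fin (n i)) K),
    (∀ g, ∃ i, g ∈ H i) ∧ (∀ i, NonarchProper (ρ i)) ∧
    ∀ i j, ∃ k, PolyLe (ρ i) (ρ k) ∧ PolyLe (ρ j) (ρ k)

theorem ent_inv {K : Type*} [Field K] {n : ℕ} (g : GL (Fin n) K)
    (s : (Fin n × Fin n) ⊕ (Fin n × Fin n)) : ent g⁻¹ s = ent g s.swap := by
  rcases s with s | s
  · rfl
  · simp [ent]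

theorem ent_injective {K : Type*} [Field K] {n : ℕ} {g h : GL (Fin n) K} (hgh : ent g = ent h) :
    g = h := by
  apply Units.ext
  ext a b
  have := congrFun hgh (Sum.inl (a, b))
  simpa [ent] using this

theorem ent_mul_mem {K : Type*} [Field K] {n : ℕ} (R : Subring K) {g h : GL (Fin n) K}
    (hg : ∀ s, ent g s ∈ R) (hh : ∀ s, ent h s ∈ R) (s : (Fin n × Fin n) ⊕ (Fin n × Fin n)) :
    ent (g * h) s ∈ R := by
  rcases s with ⟨a, b⟩ | ⟨a, b⟩
  · have h1 : ent (g * h) (Sum.inl (a, b)) = ∑ c, ent g (Sum.inl (a, c)) * ent h (Sum.inl (c, b)) := by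
      simp only [ent, Sum.elim_inl, Units.val_mul, Matrix.mul_apply]
    rw [h1]
    exact Subring.sum_mem _ fun c _ => Subring.mul_mem _ (hg _) (hh _)
  · have h1 : ent (g * h) (Sum.inr (a, b)) = ∑ c, ent h (Sum.inr (a, c)) * ent g (Sum.inr (c, b)) := by
      simp only [ent, Sum.elim_inr, mul_inv_rev, Units.val_mul, Matrix.mul_apply]
    rw [h1]
    exact Subring.sum_mem _ fun c _ => Subring.mul_mem _ (hh _) (hg _)

theorem ent_one_mem {K : Type*} [Field K] {n : ℕ} (R : Subring K)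
    (s : (Fin n × Fin n) ⊕ (Fin n × Fin n)) : ent (1 : GL (Fin n) K) s ∈ R := by
  rcases s with ⟨a, b⟩ | ⟨a, b⟩
  · have h1 : ent (1 : GL (Fin n) K) (Sum.inl (a, b)) = if a = b then 1 else 0 := by
      simp only [ent, Sum.elim_inl, Units.val_one, Matrix.one_apply]
    rw [h1]
    split_ifs
    · exact R.one_mem
    · exact R.zero_mem
  · have h1 : ent (1 : GL (Fin n) K) (Sum.inr (a, b)) = if a = b then 1 else 0 := by
      simp only [ent, Sum.elim_inr, inv_one, Units.val_one, Matrix.one_apply]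
    rw [h1]
    split_ifs
    · exact R.one_mem
    · exact R.zero_mem

/-- the block diagonal matrix of `g` and the transpose of `g⁻¹` -/
def dblM {K : Type*} [Field K] (n : ℕ) :
    GL (Fin n) K →* Matrix (Fin n ⊕ Fin n) (Fin n ⊕ Fin n) K where
  toFun g := Matrix.fromBlocks (g : Matrix (Fin n) (Fin n) K) 0 0
    ((g⁻¹ : GL (Fin n) K) : Matrix (Fin n) (Fin n) K).transpose
  map_one' := by simp
  map_mul' g h := by
    rw [Matrix.fromBlocks_multiply]
    simp [Matrix.transpose_mul]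

/-- the same with indices in `Fin (n + n)` -/
noncomputable def dbl {K : Type*} [Field K] (n : ℕ) : GL (Fin n) K →* GL (Fin (n + n)) K :=
  (((Matrix.reindexAlgEquiv K K (finSumFinEquiv (m := n) (n := n))).toMulEquiv.toMonoidHom).comp
    (dblM (K := K) n)).toHomUnits

theorem dbl_apply {K : Type*} [Field K] (n : ℕ) (g : GL (Fin n) K) (a b : Fin n ⊕ Fin n) :
    (dbl n g : Matrix (Fin (n + n)) (Fin (n + n)) K) (finSumFinEquiv a) (finSumFinEquiv b) =
      Matrix.fromBlocks (g : Matrix (Fin n) (Fin n) K) 0 0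
    ((g⁻¹ : GL (Fin n) K) : Matrix (Fin n) (Fin n) K).transpose a b := by
  simp [dbl, dblM]

/-- the position of the entry in the double matrix -/
def pos {n : ℕ} : (Fin n × Fin n) ⊕ (Fin n × Fin n) → Fin (n + n) × Fin (n + n) :=
  Sum.elim (fun p => (finSumFinEquiv (Sum.inl p.1), finSumFinEquiv (Sum.inl p.2)))
    (fun p => (finSumFinEquiv (Sum.inr p.2), finSumFinEquiv (Sum.inr p.1)))

theorem dbl_pos {K : Type*} [Field K] {n : ℕ} (g : GL (Fin n) K)
    (s : (Fin n × Fin n) ⊕ (Fin n × Fin n)) :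
    (dbl n g : Matrix (Fin (n + n)) (Fin (n + n)) K) (pos s).1 (pos s).2 = ent g s := by
  rcases s with ⟨a, b⟩ | ⟨a, b⟩
  · simp only [pos, Sum.elim_inl]
    rw [dbl_apply]
    simp [ent]
  · simp only [pos, Sum.elim_inr]
    rw [dbl_apply]
    simp [ent]

/-- `PolyIn` for the entries of the inverse too -/
theorem PolyIn.ent {K : Type*} [Field K] {H : Type*} [Group H] {n m : ℕ} {ρ : H →* GL (Fin n) K}
    {σ : H →* GL (Fin m) K} (h : PolyIn ρ σ) :
    ∃ P : (Fin m × Fin m) ⊕ (Fin m × Fin m) →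
        MvPolynomial ((Fin n × Fin n) ⊕ (Fin n × Fin n)) K,
      ∀ h s, ent (σ h) s = MvPolynomial.eval (GI.ent (ρ h)) (P s) := by
  obtain ⟨P, hP⟩ := h
  refine ⟨Sum.elim (fun p => P p.1 p.2) (fun p => MvPolynomial.rename Sum.swap (P p.1 p.2)), ?_⟩
  rintro h (⟨a, b⟩ | ⟨a, b⟩)
  · simpa [GI.ent] using hP h a b
  · have h1 := hP h⁻¹ a b
    rw [map_inv, map_inv] at h1
    have h2 : GI.ent (σ h) (Sum.inr (a, b)) =
        (((σ h)⁻¹ : GL (Fin m) K) : Matrix (Fin m) (Fin m) K) a b := rfl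
    rw [h2, h1]
    simp only [Sum.elim_inr]
    rw [MvPolynomial.eval_rename]
    congr 2
    funext s
    exact ent_inv (ρ h) s

theorem PolyIn.refl {K : Type*} [Field K] {H : Type*} [Group H] {n : ℕ} (ρ : H →* GL (Fin n) K) :
    PolyIn ρ ρ :=
  ⟨fun a b => MvPolynomial.X (Sum.inl (a, b)), fun h a b => by simp [GI.ent]⟩

theorem PolyIn.trans {K : Type*} [Field K] {H : Type*} [Group H] {n m l : ℕ}
    {ρ : H →* GL (Fin n) K} {σ : H →* GL (Fin m) K} {τ : H →* GL (Fin l) K} (h1 : PolyIn ρ σ)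
    (h2 : PolyIn σ τ) : PolyIn ρ τ := by
  obtain ⟨P, hP⟩ := h1.ent
  obtain ⟨Q, hQ⟩ := h2
  refine ⟨fun a b => MvPolynomial.bind₁ P (Q a b), fun h a b => ?_⟩
  have h3 : MvPolynomial.eval (GI.ent (ρ h)) (MvPolynomial.bind₁ P (Q a b)) =
      MvPolynomial.eval (fun s => MvPolynomial.eval (GI.ent (ρ h)) (P s)) (Q a b) := by
    have := MvPolynomial.eval₂Hom_bind₁ (RingHom.id K) (GI.ent (ρ h)) P (Q a b)
    exact this
  rw [h3, hQ]
  congr 2
  funext s
  exact hP h s

theorem PolyIn.comap {K : Type*} [Field K] {H H' : Type*} [Group H] [Group H'] {n m : ℕ}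
    {ρ : H →* GL (Fin n) K} {σ : H →* GL (Fin m) K} (h : PolyIn ρ σ) (f : H' →* H) :
    PolyIn (ρ.comp f) (σ.comp f) := by
  obtain ⟨P, hP⟩ := h
  exact ⟨P, fun h a b => hP (f h) a b⟩

theorem PolyLe.refl {K : Type*} [Field K] {G : Type*} [Group G] {H : Subgroup G} {n : ℕ}
    (ρ : H →* GL (Fin n) K) : PolyLe ρ ρ :=
  ⟨le_rfl, PolyIn.refl _, PolyIn.refl _⟩

theorem PolyLe.trans {K : Type*} [Field K] {G : Type*} [Group G] {H H' H'' : Subgroup G}
    {n m l : ℕ} {ρ : H →* GL (Fin n) K} {ρ' : H' →* GL (Fin m) K} {ρ'' : H'' →* GL (Fin l) K}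
    (h1 : PolyLe ρ ρ') (h2 : PolyLe ρ' ρ'') : PolyLe ρ ρ'' := by
  obtain ⟨h, a, b⟩ := h1
  obtain ⟨h', a', b'⟩ := h2
  exact ⟨h.trans h', a.trans (a'.comap (Subgroup.inclusion h)),
    PolyIn.trans (b'.comap (Subgroup.inclusion h)) b⟩

theorem polyOver_algUnion {K : Type u} [Field K] {G : Type w} [Group G] (hG : AlgUnion K G)
    (T : Finset G) : PolyOver.{u} T := by
  classical
  obtain ⟨ι, H, n, ρ, hcov, hprop, hdir⟩ := hG
  have key : ∀ (S : Finset G) (i : ι), ∃ j, PolyLe (ρ i) (ρ j) ∧ ∀ s ∈ S, s ∈ H j := by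
    intro S i
    induction S using Finset.induction_on with
    | empty => exact ⟨i, PolyLe.refl _, by simp⟩
    | insert a S _ ih =>
      obtain ⟨j, hij, hj⟩ := ih
      obtain ⟨k, hk⟩ := hcov a
      obtain ⟨l, hjl, hkl⟩ := hdir j k
      refine ⟨l, hij.trans hjl, ?_⟩
      intro s hs
      rcases Finset.mem_insert.1 hs with rfl | hs
      · exact hkl.1 hk
      · exact hjl.1 (hj s hs)
  obtain ⟨i₀, _⟩ := hcov 1
  obtain ⟨i, _, hTi⟩ := key T i₀
  have hcl : ∀ h ∈ Subgroup.closure (T : Set G), h ∈ H i := fun h hh =>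
    (Subgroup.closure_le (H i)).2 hTi hh
  let σ := (Fin (n i) × Fin (n i)) ⊕ (Fin (n i) × Fin (n i))
  let e : σ ≃ Fin (Fintype.card σ) := Fintype.equivFin σ
  let y : G → Fin (Fintype.card σ) → K := fun g l =>
    if hg : g ∈ H i then ent (ρ i ⟨g, hg⟩) (e.symm l) else 0
  have hy : ∀ g (hg : g ∈ H i) (s : σ), y g (e s) = ent (ρ i ⟨g, hg⟩) s := by
    intro g hg s
    simp only [y, dif_pos hg, Equiv.symm_apply_apply]
  obtain ⟨k, v, hv, hfin⟩ := hprop i T hTi
  refine ⟨K, inferInstance, Fintype.card σ, k, y, v, hv, ?_, ?_⟩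
  · intro B
    refine ((hfin B).image Subtype.val).subset ?_
    rintro h ⟨hh, hB⟩
    refine ⟨⟨h, hcl h hh⟩, ⟨hh, fun j s => ?_⟩, rfl⟩
    rw [← hy h (hcl h hh) s]
    exact hB j (e s)
  · intro S hTS
    obtain ⟨j, ⟨hij, hij1, hij2⟩, hSj⟩ := key S i
    have hcS : Subgroup.closure (S : Set G) ≤ H j := (Subgroup.closure_le (H j)).2 hSj
    obtain ⟨P, hP⟩ := hij1.ent
    obtain ⟨Q, hQ⟩ := hij2.ent
    refine ⟨n j + n j, (dbl (n j)).comp ((ρ j).comp (Subgroup.inclusion hcS)),
      fun a b => MvPolynomial.rename e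
        (match finSumFinEquiv.symm a, finSumFinEquiv.symm b with
          | Sum.inl a, Sum.inl b => P (Sum.inl (a, b))
          | Sum.inr a, Sum.inr b => P (Sum.inr (b, a))
          | Sum.inl _, Sum.inr _ => 0
          | Sum.inr _, Sum.inl _ => 0),
      fun l => MvPolynomial.rename pos (Q (e.symm l)), ?_⟩
    rintro ⟨h, hS⟩ hT
    have hi := hcl h hT
    have hyh : (y h ∘ e : σ → K) = ent (ρ i ⟨h, hi⟩) := funext fun s => hy h hi s
    have hφ : ((dbl (n j)).comp ((ρ j).comp (Subgroup.inclusion hcS))) ⟨h, hS⟩ =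
        dbl (n j) (((ρ j).comp (Subgroup.inclusion hij)) ⟨h, hi⟩) := rfl
    rw [hφ]
    constructor
    · intro a b
      rw [MvPolynomial.eval_rename, hyh]
      obtain ⟨a, rfl⟩ := (finSumFinEquiv (m := n j) (n := n j)).surjective a
      obtain ⟨b, rfl⟩ := (finSumFinEquiv (m := n j) (n := n j)).surjective b
      rw [Equiv.symm_apply_apply, Equiv.symm_apply_apply]
      rcases a with a | a <;> rcases b with b | b
      · have h1 := dbl_pos (((ρ j).comp (Subgroup.inclusion hij)) ⟨h, hi⟩) (Sum.inl (a, b))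
        rw [hP] at h1
        exact h1
      · rw [dbl_apply]
        simp
      · rw [dbl_apply]
        simp
      · have h1 := dbl_pos (((ρ j).comp (Subgroup.inclusion hij)) ⟨h, hi⟩) (Sum.inr (b, a))
        rw [hP] at h1
        exact h1
    · intro l
      have h1 := hy h hi (e.symm l)
      rw [Equiv.apply_symm_apply] at h1
      rw [h1, hQ, MvPolynomial.eval_rename]
      congr 2
      funext s
      exact (dbl_pos _ s).symm

section Proper

variable {K : Type u} [Field K] {G : Type w} [Group G] {H : Subgroup G} {n : ℕ}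

/-- the entries of the matrices of `⟨T⟩` lie in the ring generated by finitely many elements `E`; if
finitely many elements of this ring have a given bound, then finitely many elements of `⟨T⟩` do -/
theorem finite_of_ring (ρ : H →* GL (Fin n) K) (T : Finset G) (hT : ∀ t ∈ T, t ∈ H)
    (hker : {h : H | (h : G) ∈ Subgroup.closure (T : Set G) ∧ ρ h = 1}.Finite) :
    ∃ E : Finset K, ∀ C : Set K, {x : K | x ∈ Subring.closure (E : Set K) ∧ x ∈ C}.Finite →
      {h : H | (h : G) ∈ Subgroup.closure (T : Set G) ∧ ∀ s, ent (ρ h) s ∈ C}.Finite := by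
  classical
  have hcl : ∀ h ∈ Subgroup.closure (T : Set G), h ∈ H := fun h hh =>
    (Subgroup.closure_le H).2 hT hh
  let E : Finset K := T.attach.biUnion fun t => Finset.univ.image (ent (ρ ⟨t.1, hT t.1 t.2⟩))
  have hring : ∀ h ∈ Subgroup.closure (T : Set G), ∀ (hg : h ∈ H) s,
      ent (ρ ⟨h, hg⟩) s ∈ Subring.closure (E : Set K) := by
    intro h hh
    induction hh using Subgroup.closure_induction with
    | mem x hx =>
      intro hg s
      apply Subring.subset_closure
      simp only [E, Finset.coe_biUnion, Finset.coe_image, Finset.coe_univ, Set.image_univ,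
        Set.mem_iUnion, Set.mem_range]
      exact ⟨⟨x, hx⟩, Finset.mem_coe.2 (Finset.mem_attach _ _), s, rfl⟩
    | one =>
      intro hg s
      have h1 : ρ ⟨1, hg⟩ = 1 := map_one ρ
      rw [h1]
      exact ent_one_mem _ s
    | mul x z hx hz ihx ihz =>
      intro hg s
      have h1 : ρ ⟨x * z, hg⟩ = ρ ⟨x, hcl x hx⟩ * ρ ⟨z, hcl z hz⟩ := by
        rw [← map_mul]; rfl
      rw [h1]
      exact ent_mul_mem _ (ihx (hcl x hx)) (ihz (hcl z hz)) s
    | inv x hx ihx =>
      intro hg s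
      have h1 : ρ ⟨x⁻¹, hg⟩ = (ρ ⟨x, hcl x hx⟩)⁻¹ := by
        rw [← map_inv]; rfl
      rw [h1, ent_inv]
      exact ihx (hcl x hx) _
  refine ⟨E, fun C hC => ?_⟩
  refine Set.Finite.of_finite_fibers (fun h : H => ent (ρ h)) ?_ ?_
  · refine (Set.Finite.pi' (fun _ : (Fin n × Fin n) ⊕ (Fin n × Fin n) => hC)).subset ?_
    rintro _ ⟨h, ⟨hh, hB⟩, rfl⟩ s
    exact ⟨hring h.1 hh h.2 s, hB s⟩
  · rintro _ ⟨h₀, ⟨hh₀, hB₀⟩, rfl⟩
    refine (hker.image (fun a : H => h₀ * a)).subset ?_
    rintro h ⟨⟨hh, _⟩, hhh⟩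
    refine ⟨h₀⁻¹ * h, ⟨?_, ?_⟩, by simp⟩
    · exact Subgroup.mul_mem _ (Subgroup.inv_mem _ hh₀) hh
    · have h1 : ρ h = ρ h₀ := ent_injective hhh
      rw [map_mul, map_inv, h1, inv_mul_cancel]

/-- positive characteristic -/
theorem nonarchProper_charP (p : ℕ) [Fact p.Prime] [CharP K p] (ρ : H →* GL (Fin n) K)
    (hker : ∀ T : Finset G, (∀ t ∈ T, t ∈ H) →
      {h : H | (h : G) ∈ Subgroup.closure (T : Set G) ∧ ρ h = 1}.Finite) :
    NonarchProper ρ := by
  classical
  intro T hT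
  obtain ⟨E, hE⟩ := finite_of_ring ρ T hT (hker T hT)
  obtain ⟨k, v, hv, hfin⟩ := exists_places_charP_of (K := K) p
    (fun A L _ _ _ _ _ v hv => exists_abv_fractionField v hv)
    (fun F E _ _ _ _ v hv => exists_extensions v hv)
    (fun F E _ _ _ v hv => exists_abv_extension v hv) E
  refine ⟨k, v, fun j => hv j, fun B => ?_⟩
  refine (hE {x | ∀ j, v j x ≤ B} (hfin B)).subset ?_
  rintro h ⟨hh, hB⟩
  exact ⟨hh, fun s j => hB j s⟩

/-- algebraic numbers, bounded at the archimedean absolute values -/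
theorem nonarchProper_algebraic [CharZero K] (hK : ∀ x : K, IsAlgebraic ℤ x)
    (ρ : H →* GL (Fin n) K)
    (hker : ∀ T : Finset G, (∀ t ∈ T, t ∈ H) →
      {h : H | (h : G) ∈ Subgroup.closure (T : Set G) ∧ ρ h = 1}.Finite)
    (hbd : ∀ T : Finset G, (∀ t ∈ T, t ∈ H) → ∀ σ : K →+* ℂ, ∃ C : ℝ, ∀ h : H,
      (h : G) ∈ Subgroup.closure (T : Set G) → ∀ s, ‖σ (ent (ρ h) s)‖ ≤ C) :
    NonarchProper ρ := by
  classical
  intro T hT
  obtain ⟨E, hE⟩ := finite_of_ring ρ T hT (hker T hT)
  have halg : Algebra.IsAlgebraic ℚ K := by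
    constructor
    intro x
    obtain ⟨p, hp, hpx⟩ := hK x
    refine ⟨p.map (Int.castRingHom ℚ), ?_, ?_⟩
    · rwa [ne_eq, Polynomial.map_eq_zero_iff (RingHom.injective_int _)]
    · rw [Polynomial.aeval_def, Polynomial.eval₂_map]
      have h1 : (algebraMap ℚ K).comp (Int.castRingHom ℚ) = algebraMap ℤ K :=
        Subsingleton.elim _ _
      rw [h1]
      exact hpx
  let f : K →+* AlgebraicClosure ℚ := (IsAlgClosed.lift : K →ₐ[ℚ] AlgebraicClosure ℚ)
  obtain ⟨k, v, hv, hfin⟩ := exists_places (E.image f)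
  let w : Fin k → AbsoluteValue K ℝ := fun j =>
    if IsNonarchimedean (v j) then (v j).comp f.injective else AbsoluteValue.trivial
  have hw : ∀ j, IsNonarchimedean (w j) := by
    intro j
    by_cases hj : IsNonarchimedean (v j)
    · simp only [w, if_pos hj]
      intro x y
      have := hj (f x) (f y)
      rw [← map_add] at this
      exact this
    · simp only [w, if_neg hj]
      intro x y
      by_cases hx : x = 0
      · subst hx
        simp
      by_cases hy : y = 0
      · subst hy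
        simp
      by_cases hxy : x + y = 0
      · rw [hxy, map_zero]
        exact le_max_of_le_left (apply_nonneg _ _)
      · rw [AbsoluteValue.trivial_apply hxy, AbsoluteValue.trivial_apply hx,
          AbsoluteValue.trivial_apply hy]
        simp
  have hC : ∃ C : Fin k → ℝ, ∀ j, ¬ IsNonarchimedean (v j) → ∀ h : H,
      (h : G) ∈ Subgroup.closure (T : Set G) → ∀ s, v j (f (ent (ρ h) s)) ≤ C j := by
    have : ∀ j, ∃ C : ℝ, ¬ IsNonarchimedean (v j) → ∀ h : H,
        (h : G) ∈ Subgroup.closure (T : Set G) → ∀ s, v j (f (ent (ρ h) s)) ≤ C := by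
      intro j
      rcases hv j with ⟨σ, hσ⟩ | hna
      · obtain ⟨C, hC⟩ := hbd T hT (σ.comp f)
        refine ⟨C, fun _ h hh s => ?_⟩
        rw [hσ]
        exact hC h hh s
      · exact ⟨0, fun hn => absurd hna hn⟩
    choose C hC using this
    exact ⟨C, hC⟩
  obtain ⟨C, hC⟩ := hC
  refine ⟨k, w, hw, fun B => ?_⟩
  let B' : ℝ := max B (∑ j, |C j|)
  have hset : {x : K | x ∈ Subring.closure (E : Set K) ∧ x ∈ {x : K | ∀ j, v j (f x) ≤ B'}}.Finite := by
    refine Set.Finite.of_finite_image (f := f) ((hfin B').subset ?_) f.injective.injOn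
    rintro _ ⟨x, ⟨hx, hxB⟩, rfl⟩
    refine ⟨?_, hxB⟩
    have h1 : f x ∈ (Subring.closure (E : Set K)).map f := ⟨x, hx, rfl⟩
    rw [RingHom.map_closure] at h1
    rwa [Finset.coe_image]
  refine (hE _ hset).subset ?_
  rintro h ⟨hh, hB⟩
  refine ⟨hh, fun s j => ?_⟩
  by_cases hj : IsNonarchimedean (v j)
  · have h1 := hB j s
    simp only [w, if_pos hj] at h1
    exact le_max_of_le_left h1
  · refine le_max_of_le_right ((hC j hj h hh s).trans ((le_abs_self _).trans ?_))
    exact Finset.single_le_sum (f := fun j => |C j|) (fun _ _ => abs_nonneg _) (Finset.mem_univ j)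

end Proper

end Pool.Agent.Helper58.GI
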